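import Pool.Agent.Run7.h878.LF.Chain

set_option autoImplicit false
set_option linter.unusedSectionVars false
set_option linter.unusedVariables false
set_option synthInstance.maxHeartbeats 400000
set_option synthInstance.maxSize 2048

/-!
# The conclusions for nice classes of graphs
-/

namespace Pool.Agent.Run7.h878.LF

open Finset Pool.Agent.TH362.TF Pool.Agent.R890.FF Pool.Agent.TH676.Z Pool.Agent.R926.SC
open Pool.Agent.N410.DC
open Pool.Agent.TH676.A (Alg FlowOn)
open Pool.Agent.TH497.BF (G Ag inA algAg)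

variable {V E : Type} [Fintype V] [DecidableEq V] [Fintype E] [DecidableEq E]

theorem Nice.flow {Cl : (E → V) → (E → V) → Prop} (hC : Nice Cl) {s t : E → V} (h : Cl s t)
    (h1 : N1 s t univ) : NZ s t univ ∨ PQ s t univ := by
  rcases hC s t h h1 with h2 | ⟨κ, h2, -⟩
  · exact Or.inl h2
  · exact Or.inr ⟨κ, h2⟩

/-- six even subgraphs -/
theorem bf_nice {Cl : (E → V) → (E → V) → Prop} (hC : Nice Cl) (s t : E → V)
    (hB : Pool.Agent.TH676.A.Br s t ∅ ∅) (h : Cl s t) : FlowOn Ag s t ∅ ∅ :=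
  alg_classP algAg petBF ⟨embBF, Pool.Agent.R890.FF.emb_A⟩ hC _ s t rfl h (n1_of_br hB)

open Pool.Agent.H160R2.CC Pool.Agent.H160R2.CC.MGraph in
/-- maps to the Petersen graph -/
theorem succ_nice (G : MGraph) {Cl : (G.E → G.V) → (G.E → G.V) → Prop} (hC : Nice Cl)
    (hB : ¬ G.HasCutEdge) (h : Cl G.src G.tgt) : Succ G petersen :=
  Pool.Agent.R545.PC.succ_of_flow G (alg_classP Pool.Agent.R545.PC.algPC
    Pool.Agent.R545.PC.petPC ⟨Pool.Agent.R545.PC.emb, Pool.Agent.R545.PC.emb_A⟩ hC _ G.src G.tgt rfl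
    h (Pool.Agent.R545.PC.n1_of_cut G hB))

open Pool.Agent.H160R2.HF Pool.Agent.H23.PS in
/-- five oriented classes -/
theorem oc_nice {Cl : (E → V) → (E → V) → Prop} (hC : Nice Cl) (G : OrGraph V E)
    (h : G.Bridgeless) (hG : Cl G.t G.h) : FiveClasses G := by
  have h1 := sgn_classP hom3U petOc classes_of_nz hC _ G.t G.h rfl hG (n1_of_bridgeless G h)
  rw [classes_iff] at h1
  exact h1

/-- the class with the steps in the form of the results -/
theorem CCl.of_steps {ks : List ℕ} {s t : E → V} {m : ℕ} {C : Fin m → Finset E} {r : V → V}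
    (h : ∀ i, (((C i \ (univ.filter (fun j => j < i)).biUnion C).card ≤ 4 ∧
        ∀ Y : Finset V, Disjoint (crs s t Y) ((univ.filter (fun j => j < i)).biUnion C) →
          (crs s t Y ∩ C i).card ≠ 1) ∨
      ∃ T₁ T₂ : Finset E, T₁ ⊆ C i ∧ T₂ ⊆ C i ∧ Disjoint T₁ T₂ ∧
        ∀ Y : Finset V, Disjoint (crs s t Y) ((univ.filter (fun j => j < i)).biUnion C) →
          ¬ Disjoint (crs s t Y) (C i) →
            ¬ Disjoint (crs s t Y) T₁ ∧ ¬ Disjoint (crs s t Y) T₂))
    (hr : Contr s t (univ.biUnion C) r)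
    (hO : ¬ HasF (Nb (fun e => r (s e)) (fun e => r (t e)) univ) ks) : CCl ks s t :=
  ⟨m, C, r, st_of s t m C h, hr, hO⟩

/-- adjacency -/
def Adj' {V E : Type} (s t : E → V) (x y : V) : Prop :=
  x ≠ y ∧ ∃ e, (s e = x ∧ t e = y) ∨ (s e = y ∧ t e = x)

theorem nb_iff (s t : E → V) (x y : V) : Nb s t univ x y ↔ Adj' s t x y := by
  unfold Nb Adj' Ends
  constructor
  · rintro ⟨h, e, _, he⟩
    exact ⟨h.symm, e, by tauto⟩
  · rintro ⟨h, e, he⟩
    exact ⟨h.symm, e, mem_univ _, by tauto⟩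

/-- every induced path with nine vertices is dominating -/
theorem not_hasF_nine {s t : E → V}
    (h : ∀ p : Fin 9 → V, Function.Injective p →
      (∀ i j : Fin 9, i < j → (Adj' s t (p i) (p j) ↔ i.val + 1 = j.val)) →
      ∀ x, (∃ y, Adj' s t x y) → (∃ i, x = p i) ∨ ∃ i, Adj' s t x (p i)) :
    ¬ HasF (Nb s t univ) [9, 1] := by
  rintro ⟨P, q1, q2, q3, q4⟩
  have hlen : P.length = 2 := by
    have := congrArg List.length q1
    simpa using this
  obtain ⟨l, l', rfl⟩ := List.length_eq_two.1 hlen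
  simp only [List.map_cons, List.map_nil, List.cons.injEq, and_true] at q1
  obtain ⟨hl, hl'⟩ := q1
  obtain ⟨x, rfl⟩ := List.length_eq_one_iff.1 hl'
  have hl1 := q3 l (by simp)
  obtain ⟨b, hb⟩ := q2 [x] (by simp) x (by simp)
  rw [List.pairwise_pair] at q4
  have hfar : ∀ i : Fin 9, l[i.val] ≠ x ∧ ¬ Nb s t univ (l[i.val]) x := fun i =>
    q4 _ (List.getElem_mem _) x (by simp)
  have hinj : Function.Injective (fun i : Fin 9 => l[i.val]'(by omega)) := by
    intro i j hij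
    rcases lt_trichotomy i j with h3 | h3 | h3
    · exact absurd hij (hl1 i.val j.val (by omega) (by omega) h3).1
    · exact h3
    · exact absurd hij.symm (hl1 j.val i.val (by omega) (by omega) h3).1
  have hpath : ∀ i j : Fin 9, i < j →
      (Adj' s t (l[i.val]'(by omega)) (l[j.val]'(by omega)) ↔ i.val + 1 = j.val) := by
    intro i j hij
    rw [← nb_iff]
    exact (hl1 i.val j.val (by omega) (by omega) hij).2
  rcases h _ hinj hpath x ⟨b, (nb_iff s t x b).1 hb⟩ with ⟨i, hi⟩ | ⟨i, hi⟩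
  · exact (hfar i).1 hi.symm
  · exact (hfar i).2 (nb_comm ((nb_iff s t _ _).2 hi))

/-- the form of the results -/
theorem hasF_iff {s t : E → V} {ks : List ℕ} : HasF (Nb s t univ) ks ↔
    ∃ P : List (List V), P.map List.length = ks ∧ (∀ l ∈ P, ∀ x ∈ l, ∃ y, Adj' s t x y) ∧
      (∀ l ∈ P, ∀ (i j : ℕ) (hi : i < l.length) (hj : j < l.length), i < j →
        l[i] ≠ l[j] ∧ (Adj' s t l[i] l[j] ↔ i + 1 = j)) ∧
      P.Pairwise (fun l l' => ∀ x ∈ l, ∀ y ∈ l', x ≠ y ∧ ¬ Adj' s t x y) := by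
  have h : Nb s t univ = Adj' s t := by
    funext x y
    exact propext (nb_iff s t x y)
  rw [h]
  exact Iff.rfl

end Pool.Agent.Run7.h878.LF
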