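import Pool.Agent.Run7.h878.LF.MainF
import Pool.Agent.N410.DC.Gen

set_option autoImplicit false
set_option linter.unusedSectionVars false
set_option linter.unusedVariables false
set_option synthInstance.maxHeartbeats 400000
set_option synthInstance.maxSize 2048

/-!
# Graphs without some induced linear forests after the contraction of a chain of pieces
-/

namespace Pool.Agent.Run7.h878.LF

open Finset Pool.Agent.TH362.TF Pool.Agent.R890.FF Pool.Agent.TH676.Z Pool.Agent.R926.SC
open Pool.Agent.N410.DC

variable {V E : Type} [Fintype V] [DecidableEq V] [Fintype E] [DecidableEq E]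

/-- `r` contracts the edges of `F` and nothing else -/
def Contr (s t : E → V) (F : Finset E) (r : V → V) : Prop :=
  (∀ e ∈ F, r (s e) = r (t e)) ∧ ∀ v, ∀ Y : Finset V, Disjoint (crs s t Y) F → (v ∈ Y ↔ r v ∈ Y)

/-- after the contraction of a chain of pieces there is no induced linear forest of a given kind -/
def CCl (ks : List ℕ) (s t : E → V) : Prop :=
  ∃ (m : ℕ) (C : Fin m → Finset E) (r : V → V), Pool.Agent.N410.DC.Chain s t C ∧
    Contr s t (univ.biUnion C) r ∧ ¬ HasF (Nb (fun e => r (s e)) (fun e => r (t e)) univ) ks

/-- maps with the same fibres -/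
theorem HasF.congr {s t : E → V} {r r' : V → V} (h : ∀ x y, r' x = r' y ↔ r x = r y)
    {ks : List ℕ} (hF : HasF (Nb (fun e => r' (s e)) (fun e => r' (t e)) univ) ks) :
    HasF (Nb (fun e => r (s e)) (fun e => r (t e)) univ) ks := by
  classical
  set ι : V → V := fun x => if hx : ∃ v, r' v = x then r (Classical.choose hx) else x with hι
  have hιr : ∀ u, ι (r' u) = r u := by
    intro u
    have hx : ∃ v, r' v = r' u := ⟨u, rfl⟩
    simp only [hι]
    rw [dif_pos hx]
    exact (h _ _).1 (Classical.choose_spec hx)
  refine HasF.map (fun a b => nb_comm) (fun v => ∃ u, r' u = v) ?_ ι ?_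
    (fun a ha => ha.1 rfl) hF
  · rintro x y ⟨_, e, _, hE⟩
    rcases hE with ⟨h1, h2⟩ | ⟨h1, h2⟩
    · exact ⟨_, h1⟩
    · exact ⟨_, h2⟩
  · rintro _ _ ⟨u, rfl⟩ ⟨w, rfl⟩ huw
    rw [hιr, hιr]
    refine ⟨fun h' => huw ((h u w).2 h'), ?_⟩
    unfold Nb Ends
    simp only [h, ne_eq]

/-- the class is nice -/
theorem CCl.nice {ks : List ℕ} (hks : Unav V E ks) : Nice (V := V) (E := E) (CCl ks) := by
  classical
  rintro s t ⟨m, C, r, hC, hr, hO⟩ h1
  set F := univ.biUnion C with hF
  obtain ⟨r0, q1, -, q3, q4⟩ := quotC s t F
  have hN0 : N1 (fun e => r0 (s e)) (fun e => r0 (t e)) univ :=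
    quot_n1 (S' := univ) (Subset.refl _) (fun e h h' => absurd h h') h1
  have hNr : N1 (fun e => r (s e)) (fun e => r (t e)) univ :=
    quot_n1 (S' := univ) (Subset.refl _) (fun e h h' => absurd h h') h1
  have hfib : ∀ x y, r0 x = r0 y ↔ r x = r y := by
    intro x y
    constructor
    · intro h
      have h2 := q3 (univ.filter (fun u => r u = r x)) (by
        rw [disjoint_left]
        intro e he heF
        rw [mem_crs] at he
        apply he
        simp only [mem_filter, mem_univ, true_and, hr.1 e heF]) x y h
      simp only [mem_filter, mem_univ, true_and, true_iff] at h2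
      exact h2.symm
    · intro h
      have hcl : Disjoint (crs s t (univ.filter (fun u => r0 u = r0 x))) F := by
        rw [disjoint_left]
        intro e he heF
        rw [mem_crs] at he
        apply he
        simp only [mem_filter, mem_univ, true_and, q1 e heF]
      have h2 := (hr.2 x _ hcl).1 (by simp)
      have h3 := (hr.2 y _ hcl).2 (h ▸ h2)
      simp only [mem_filter, mem_univ, true_and] at h3
      exact h3.symm
  have hO0 : ¬ HasF (Nb (fun e => r0 (s e)) (fun e => r0 (t e)) univ) ks := fun h =>
    hO (HasF.congr hfib h)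
  rcases mainF hks _ _ hO0 hN0 with h3 | ⟨κ, hκ⟩
  · left
    have h4 : FlA s t F := flA_of_nz s t F r0 q4 h3
    obtain ⟨x, y, b1, b2, b3⟩ := foldM Pool.Agent.Y335.FL.circEx s t m C hC h4
    refine ⟨fun e => (x e, y e), fun e _ => ?_, fun v => cons_of s t x y v (b1 v) (b2 v)⟩
    intro h7
    rcases b3 e (notMem_empty e) with h8 | h8
    · exact h8 (congrArg Prod.fst h7)
    · exact h8 (congrArg Prod.snd h7)
  · right
    refine ⟨fun v => κ (r0 v), hκ, ?_⟩
    intro k z hz
    have hz' : κ (r0 z) ≠ k := hz
    -- r and the classes
    have hrr : ∀ v, r (r v) = r v := by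
      intro v
      have h2 := (hr.2 v (univ.filter (fun u => r u = r v)) (by
        rw [disjoint_left]
        intro e he heF
        rw [mem_crs] at he
        apply he
        simp only [mem_filter, mem_univ, true_and, hr.1 e heF])).1 (by simp)
      simpa using h2
    have hκr : ∀ v, κ (r0 (r v)) = κ (r0 v) := fun v => by
      rw [(hfib (r v) v).2 (hrr v)]
    refine ⟨m, C, fun v => if κ (r0 v) = k then r v else v,
      fun i => st_map s t (fun v => if κ (r0 v) = k then v else z) _ _ (hC i), ⟨?_, ?_⟩, ?_⟩
    · intro e he
      have h5 : r0 (s e) = r0 (t e) := q1 e he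
      have h6 : r (s e) = r (t e) := hr.1 e he
      by_cases h7 : κ (r0 (s e)) = k
      · have h8 : κ (r0 (t e)) = k := by rw [← h5]; exact h7
        simp only [h7, h8, if_true, h6]
      · have h8 : κ (r0 (t e)) ≠ k := by rw [← h5]; exact h7
        simp only [h7, h8, if_false]
    · intro v Y hY
      by_cases h7 : κ (r0 v) = k
      · simp only [h7, if_true]
        have h9 : Disjoint (crs s t (univ.filter
            (fun u => (if κ (r0 u) = k then u else z) ∈ Y))) F := by
          rw [disjoint_left] at hY ⊢
          intro e he heF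
          refine hY ?_ heF
          rw [mem_crs] at he ⊢
          simpa only [mem_filter, mem_univ, true_and] using he
        have h10 := hr.2 v _ h9
        simp only [mem_filter, mem_univ, true_and, hκr, h7, if_true] at h10
        exact h10
      · simp only [h7, if_false]
    · intro h
      apply hO
      have hκ' : IsPQ (fun e => r (s e)) (fun e => r (t e)) univ (fun v => κ (r0 v)) := by
        have e1 : ∀ x : V → Bool, cut (fun e => r (s e)) (fun e => r (t e)) (univ : Finset E) x =
            cut (fun e => r (s e)) (fun e => r (t e)) univ x := fun _ => rfl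
        refine ⟨fun k' => ?_, fun a b hab => ?_⟩
        · have h5 := hκ.1 k'
          have h6 : cut (fun e => r (s e)) (fun e => r (t e)) (univ : Finset E)
              (fun v => decide (κ (r0 v) = k')) =
              cut (fun e => r0 (s e)) (fun e => r0 (t e)) univ (fun v => decide (κ v = k')) := by
            ext e
            unfold cut
            simp only [mem_filter, mem_univ, true_and, hκr]
          rw [h6]
          exact h5
        · obtain ⟨e, he, hj⟩ := hκ.2 a b hab
          refine ⟨e, he, ?_⟩
          unfold Joins at hj ⊢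
          simp only [hκr]
          exact hj
      refine HasF.petersen hNr hκ' (k := k) (z := z) hz ?_
      convert h using 3
      · by_cases h7 : κ (r0 (s ‹E›)) = k
        · simp [h7, hκr]
        · simp [h7, hκr, hz']
      · by_cases h7 : κ (r0 (t ‹E›)) = k
        · simp [h7, hκr]
        · simp [h7, hκr, hz']

end Pool.Agent.Run7.h878.LF
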