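import Pool.Agent.R140.PK.Lift

set_option autoImplicit false
set_option linter.unusedSectionVars false
set_option linter.unusedVariables false

/-!
# A search for graphs without short circuits and without given induced linear forests

The checker of `Pool.Agent.R140.PK.Check` for several obstructions at once: a leaf of the search
shows an induced linear forest out of a list of linear forests. A linear forest is given by a list
of Booleans: the entry `true` says that the vertex continues the path of the vertex before it, the
entry `false` that it begins a new path.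
-/

namespace Pool.Agent.Run7.h878.LF

open Pool.Agent.R140.PK

/-- the digits of `p` are an induced linear forest -/
def isLF (A m : Nat) : List Bool → Nat → Nat → Nat → Bool
  | [], _, _, _ => true
  | b :: l, p, seen, prev =>
    bif Nat.beq (Nat.land (row A (Nat.mod p (nat_lit 32))) seen)
      (bif b then prev else nat_lit 0) then
    bif tb seen (Nat.mod p (nat_lit 32)) then false else
    bif Nat.ble m (Nat.mod p (nat_lit 32)) then false else
      isLF A m l (Nat.div p (nat_lit 32)) (Nat.lor seen (bit (Nat.mod p (nat_lit 32))))
        (bit (Nat.mod p (nat_lit 32)))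
    else false

/-- a leaf: the digits of `p` are the linear forest with the number `i` -/
def leaf (A m p : Nat) : List (List Bool) → Nat → Bool
  | [], _ => false
  | q :: _, 0 => isLF A m q p (nat_lit 0) (nat_lit 0)
  | _ :: l, i + 1 => leaf A m p l i

/-- a leaf: the state has the number `p` in a list of states -/
def kn (A m : Nat) : List (Nat × Nat) → Nat → Bool
  | [], _ => false
  | q :: _, 0 => bif Nat.beq A q.2 then Nat.beq m q.1 else false
  | _ :: l, i + 1 => kn A m l i

/-- a leaf of one of the two kinds -/
def leaf3 (A m p : Nat) (pats : List (List Bool)) (known : List (Nat × Nat)) (i : Nat) : Bool :=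
  bif Nat.beq i (nat_lit 7) then kn A m known p else leaf A m p pats i

/-- the checker; it returns the unused part of the certificate -/
def check2 (pats : List (List Bool)) (known : List (Nat × Nat)) :
    Nat → Nat → Nat → List Nat → Option (List Nat)
  | 0, _, _, _ => none
  | _ + 1, _, _, [] => none
  | f + 1, m, A, c :: s =>
    bif Nat.beq (Nat.mod c (nat_lit 2)) (nat_lit 0) then
      bif leaf3 A m (Nat.div c (nat_lit 16)) pats known (Nat.mod (Nat.div c (nat_lit 2)) (nat_lit 8))
        then some s else none
    else bif Nat.ble (nat_lit 31) m then none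
    else bif Nat.blt (Nat.div c (nat_lit 2)) m then
      bif Nat.ble (cnt (row A (Nat.div c (nat_lit 2))) m) (nat_lit 2) then
        run (check2 pats known f (Nat.succ m)) A m (ballm A m m) (Nat.div c (nat_lit 2)) m
          (bit (Nat.div c (nat_lit 2))) (bit (Nat.mul (nat_lit 32) (Nat.div c (nat_lit 2)))) s
      else none
    else bif Nat.ble m (nat_lit 17) then
      run (fun A' s' => bif Nat.beq (row A' m) (nat_lit 0) then some s'
        else check2 pats known f (Nat.succ m) A' s') A m (ballm A m m) m m (nat_lit 0) (nat_lit 0) s
    else none

/-- an induced linear forest without isolated vertices of the graph -/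
def HasPat {V : Type} (R : V → V → Prop) (q : List Bool) : Prop :=
  ∃ p : Nat → V, (∀ i, i < q.length → ∃ b, R (p i) b) ∧
    ∀ i j, i < j → j < q.length → p i ≠ p j ∧
      (R (p i) (p j) ↔ (i + 1 = j ∧ q.getD j false = true))

theorem lf_spec (A m : Nat) : ∀ (q : List Bool) (p : Nat) (seen prev : Nat)
    (P : Nat → Prop) (Q : Nat → Prop),
    (∀ z, seen.testBit z = true ↔ P z) → (∀ z, prev.testBit z = true ↔ Q z) →
    isLF A m q p seen prev = true →
    (∀ i, i < q.length → dg p i < m) ∧
    (∀ i, i < q.length → ∀ z, P z → z ≠ dg p i ∧
      ((row A (dg p i)).testBit z = true ↔ (i = 0 ∧ q.getD i false = true ∧ Q z))) ∧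
    (∀ i j, i < j → j < q.length → dg p i ≠ dg p j ∧
      ((row A (dg p j)).testBit (dg p i) = true ↔ i + 1 = j ∧ q.getD j false = true)) := by
  intro q
  induction q with
  | nil =>
    intro p seen prev P Q _ _ _
    exact ⟨fun i hi => absurd hi (by simp), fun i hi => absurd hi (by simp),
      fun i j _ hj => absurd hj (by simp)⟩
  | cons b q ih =>
    intro p seen prev P Q hP hQ h
    rw [isLF] at h
    have hmod : Nat.mod p 32 = dg p 0 := (dg_zero p).symm
    have hdiv : Nat.div p 32 = p / 32 := rfl
    simp only [hmod, hdiv, tb_eq] at h
    cases h1 : Nat.beq (Nat.land (row A (dg p 0)) seen) (bif b then prev else 0)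
    · rw [h1] at h; simp [cond] at h
    · rw [h1] at h
      simp only [cond_true] at h
      have h1' := Nat.eq_of_beq_eq_true h1
      cases h2 : seen.testBit (dg p 0)
      · rw [h2] at h
        simp only [cond_false] at h
        cases h3 : Nat.ble m (dg p 0)
        · rw [h3] at h
          simp only [cond_false] at h
          have h3' : dg p 0 < m := by
            by_contra hh
            rw [Nat.ble_eq_true_of_le (by omega)] at h3
            simp at h3
          have h2' : ¬ P (dg p 0) := by
            rw [← hP, h2]; simp
          obtain ⟨r1, r2, r3⟩ := ih (p / 32) _ _ (fun z => P z ∨ z = dg p 0)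
            (fun z => z = dg p 0) (fun z => by
              rw [lor_bit, bit_bit, Bool.or_eq_true, hP, decide_eq_true_eq, eq_comm (a := z)])
            (fun z => by rw [bit_bit, decide_eq_true_eq, eq_comm (a := z)]) h
          refine ⟨?_, ?_, ?_⟩
          · intro i hi
            cases i with
            | zero => exact h3'
            | succ i => rw [dg_succ]; exact r1 i (by simpa using hi)
          · intro i hi z hz
            cases i with
            | zero =>
              refine ⟨fun h => h2' (h ▸ hz), ?_⟩
              have h5 : (Nat.land (row A (dg p 0)) seen).testBit z =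
                (bif b then prev else 0).testBit z := by rw [h1']
              rw [land_bit, (hP z).2 hz, Bool.and_true] at h5
              rw [h5]
              cases b
              · simp
              · simp [hQ]
            | succ i =>
              rw [dg_succ]
              obtain ⟨a1, a2⟩ := r2 i (by simpa using hi) z (Or.inl hz)
              refine ⟨a1, a2.trans ?_⟩
              constructor
              · rintro ⟨_, _, rfl⟩; exact absurd hz h2'
              · rintro ⟨h, _⟩; omega
          · intro i j hij hj
            obtain ⟨j', rfl⟩ : ∃ j', j = j' + 1 := ⟨j - 1, by omega⟩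
            have hj' : j' < q.length := by simpa using hj
            have hgd : (b :: q).getD (j' + 1) false = q.getD j' false := by simp
            rw [hgd]
            cases i with
            | zero =>
              rw [dg_succ]
              obtain ⟨a1, a2⟩ := r2 j' hj' (dg p 0) (Or.inr rfl)
              refine ⟨a1, a2.trans ?_⟩
              constructor
              · rintro ⟨rfl, h, _⟩; exact ⟨rfl, h⟩
              · rintro ⟨h, h'⟩; exact ⟨by omega, h', rfl⟩
            | succ i =>
              rw [dg_succ, dg_succ]
              obtain ⟨a1, a2⟩ := r3 i j' (by omega) hj'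
              refine ⟨a1, a2.trans ?_⟩
              constructor
              · rintro ⟨h, h'⟩; exact ⟨by omega, h'⟩
              · rintro ⟨h, h'⟩; exact ⟨by omega, h'⟩
        · rw [h3] at h; simp [cond] at h
      · rw [h2] at h; simp [cond] at h

section
variable {V : Type} (R : V → V → Prop)

/-- graphs without circuits of length at most four, without vertices of degree one or two and
without the induced linear forests of a list -/
structure Hyp2 (pats : List (List Bool)) : Prop where
  symm : ∀ a b, R a b → R b a
  irr : ∀ a, ¬ R a a
  tri : ∀ a b c, R a b → R b c → R c a → False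
  four : ∀ a b c d, a ≠ c → b ≠ d → R a b → R b c → R c d → R d a → False
  deg : ∀ a b, R a b → ∀ l : List V, l.length ≤ 2 → ∃ w, R a w ∧ w ∉ l
  pat : ∀ q ∈ pats, ¬ HasPat R q
  closed : ∀ a b, R a b → ¬ Concl R a

variable {R}

theorem leaf_mem (A m p : Nat) : ∀ (l : List (List Bool)) (i : Nat), leaf A m p l i = true →
    ∃ q ∈ l, isLF A m q p 0 0 = true := by
  intro l
  induction l with
  | nil => intro i h; cases i <;> simp [leaf] at h
  | cons q l ih =>
    intro i h
    cases i with
    | zero => exact ⟨q, by simp, h⟩
    | succ i =>
      obtain ⟨q', h1, h2⟩ := ih i h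
      exact ⟨q', by simp [h1], h2⟩

theorem kn_mem (A m : Nat) : ∀ (l : List (Nat × Nat)) (i : Nat), kn A m l i = true →
    (m, A) ∈ l := by
  intro l
  induction l with
  | nil => intro i h; cases i <;> simp [kn] at h
  | cons q l ih =>
    intro i h
    cases i with
    | zero =>
      rw [kn] at h
      cases h1 : Nat.beq A q.2
      · rw [h1] at h; simp at h
      · rw [h1] at h
        simp only [cond_true] at h
        have h2 := Nat.eq_of_beq_eq_true h1
        have h3 := Nat.eq_of_beq_eq_true h
        rw [h2, h3]
        simp
    | succ i =>
      exact List.mem_cons_of_mem _ (ih i h)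

theorem emb_extend (hsymm : ∀ a b, R a b → R b a) (hirr : ∀ a, ¬ R a a)
    {m A : Nat} {φ : Nat → V} (h : Emb R m A φ)
    (hm : m < 31) {w : V} (hw : ∀ i, i < m → φ i ≠ w) {N Sp : Nat}
    (hN : ∀ i, i < m → (N.testBit i = true ↔ R w (φ i)))
    (hN' : ∀ i, m ≤ i → N.testBit i = false) (hb : ∃ b, R w b)
    (hS : ∀ x, Sp.testBit x = true ↔ (x % 32 = 0 ∧ N.testBit (x / 32) = true)) :
    Emb R (m + 1) (extend A m N Sp) (Function.update φ m w) := by
  have hlt : ∀ i, i < m → Function.update φ m w i = φ i := by
    intro i hi
    rw [Function.update_of_ne (by omega)]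
  have heq : Function.update φ m w m = w := by simp
  have hsplit : ∀ i, i < m + 1 → i < m ∨ i = m := by
    intro i hi; omega
  have hbit : ∀ x, (Pool.Agent.R140.PK.extend A m N Sp).testBit x = true ↔
      (A.testBit x = true ∨ (32 * m ≤ x ∧ N.testBit (x - 32 * m) = true)) ∨
        (m ≤ x ∧ (x - m) % 32 = 0 ∧ N.testBit ((x - m) / 32) = true) := by
    intro x
    have hmul : Nat.mul 32 m = 32 * m := rfl
    unfold Pool.Agent.R140.PK.extend
    rw [lor_bit, lor_bit, shl_bit, shl_bit, Bool.or_eq_true, Bool.or_eq_true, Bool.and_eq_true,
      Bool.and_eq_true, decide_eq_true_eq, decide_eq_true_eq, hS, hmul]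
  refine ⟨?_, ?_, ?_, ?_⟩
  · intro i j hi hj
    rw [hbit]
    rcases hsplit i hi with hi | rfl <;> rcases hsplit j hj with hj | rfl
    · rw [hlt i hi, hlt j hj, h.adj i j hi hj]
      constructor
      · intro h1; exact Or.inl (Or.inl h1)
      · rintro ((h1 | ⟨h1, -⟩) | ⟨h1, h2, -⟩)
        · exact h1
        · omega
        · omega
    · rw [hlt i hi, heq]
      constructor
      · intro h1
        refine Or.inr ⟨by omega, by omega, ?_⟩
        have : (32 * i + j - j) / 32 = i := by omega
        rw [this]
        exact (hN i hi).2 (hsymm _ _ h1)
      · rintro ((h1 | ⟨h1, -⟩) | ⟨h1, h2, h3⟩)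
        · rw [h.out i j (Or.inr le_rfl) (by omega)] at h1; simp at h1
        · omega
        · have : (32 * i + j - j) / 32 = i := by omega
          rw [this] at h3
          exact hsymm _ _ ((hN i hi).1 h3)
    · rw [hlt j hj, heq]
      have e1 : 32 * i + j - 32 * i = j := by omega
      constructor
      · intro h1
        refine Or.inl (Or.inr ⟨by omega, ?_⟩)
        rw [e1]
        exact (hN j hj).2 h1
      · rintro ((h1 | ⟨h1, h2⟩) | ⟨h1, h2, h3⟩)
        · rw [h.out i j (Or.inl le_rfl) (by omega)] at h1; simp at h1
        · rw [e1] at h2; exact (hN j hj).1 h2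
        · omega
    · rw [heq]
      constructor
      · intro h1; exact absurd h1 (hirr _)
      · have e1 : 32 * j + j - 32 * j = j := by omega
        have e2 : (32 * j + j - j) / 32 = j := by omega
        rintro ((h1 | ⟨h1, h2⟩) | ⟨h1, h2, h3⟩)
        · rw [h.out j j (Or.inl le_rfl) (by omega)] at h1; simp at h1
        · rw [e1, hN' j le_rfl] at h2; simp at h2
        · rw [e2, hN' j le_rfl] at h3; simp at h3
  · intro i j hij hj
    rw [← Bool.not_eq_true, hbit]
    rintro ((h1 | ⟨h1, h2⟩) | ⟨h1, h2, h3⟩)
    · rw [h.out i j (by omega) hj] at h1; simp at h1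
    · rw [hN' _ (by omega)] at h2; simp at h2
    · rw [hN' _ (by omega)] at h3; simp at h3
  · intro i j hi hj hij
    rcases hsplit i hi with hi | rfl <;> rcases hsplit j hj with hj | rfl
    · rw [hlt i hi, hlt j hj] at hij
      exact h.inj i j hi hj hij
    · rw [hlt i hi, heq] at hij
      exact absurd hij (hw i hi)
    · rw [hlt j hj, heq] at hij
      exact absurd hij.symm (hw j hj)
    · rfl
  · intro i hi
    rcases hsplit i hi with hi | rfl
    · rw [hlt i hi]; exact h.nbr i hi
    · rw [heq]; exact hb

theorem check_sound2 {pats : List (List Bool)} {known : List (Nat × Nat)} (hR : Hyp2 R pats)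
    (hK : ∀ q ∈ known, ∀ φ : Nat → V, ¬ Emb R q.1 q.2 φ) :
    ∀ (f m A : Nat) (s out : List Nat)
    (φ : Nat → V), Emb R m A φ → 0 < m → check2 pats known f m A s = some out → False := by
  classical
  intro f
  induction f with
  | zero => intro m A s out φ _ _ h; simp [check2] at h
  | succ f ih =>
    intro m A s out φ he hpos h
    cases s with
    | nil => simp [check2] at h
    | cons c s =>
      rw [check2] at h
      cases h1 : Nat.beq (Nat.mod c 2) 0
      swap
      · rw [h1] at h
        simp only [cond_true] at h
        cases h2 : leaf3 A m (Nat.div c 16) pats known (Nat.mod (Nat.div c 2) 8)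
        · rw [h2] at h; simp at h
        · rw [leaf3] at h2
          cases h2' : Nat.beq (Nat.mod (Nat.div c 2) 8) 7
          swap
          · rw [h2'] at h2
            simp only [cond_true] at h2
            exact hK _ (kn_mem _ _ _ _ h2) φ he
          rw [h2'] at h2
          simp only [cond_false] at h2
          obtain ⟨q, hq, hq2⟩ := leaf_mem _ _ _ _ _ h2
          obtain ⟨h3, -, h4⟩ := lf_spec A m q (Nat.div c 16) 0 0 (fun _ => False)
            (fun _ => False) (fun z => by simp) (fun z => by simp) hq2
          refine hR.pat q hq ⟨fun i => φ (dg (Nat.div c 16) i), ?_, ?_⟩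
          · intro i hi
            exact he.nbr _ (h3 i hi)
          · intro i j hij hj
            obtain ⟨a1, a2⟩ := h4 i j hij hj
            refine ⟨fun h => a1 (he.inj _ _ (h3 i (by omega)) (h3 j hj) h), ?_⟩
            rw [← a2]
            have h7 : dg (Nat.div c 16) i < 32 := Nat.mod_lt _ (by omega)
            rw [row_bit]
            simp only [h7, decide_true, Bool.true_and]
            rw [← he.adj _ _ (h3 j hj) (h3 i (by omega))]
            exact ⟨hR.symm _ _, hR.symm _ _⟩
      rw [h1] at h
      simp only [cond_false] at h
      cases hm31 : Nat.ble 31 m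
      swap
      · rw [hm31] at h; simp at h
      rw [hm31] at h
      simp only [cond_false] at h
      have hm : m < 31 := by
        by_contra hh
        rw [Nat.ble_eq_true_of_le (by omega)] at hm31
        simp at hm31
      -- the step for a new vertex
      have step : ∀ (g : Nat → List Nat → Option (List Nat)) (w : V) (v N0 S0 : Nat) (o : List Nat),
          (∀ i, i < m → φ i ≠ w) → (∃ b, R w b) → (∃ i, i < m ∧ R w (φ i)) →
          (∀ j, N0.testBit j = true ↔ v < m ∧ j = v) → (v < m → R w (φ v)) →
          (∀ x, S0.testBit x = true ↔ (x % 32 = 0 ∧ N0.testBit (x / 32) = true)) → m ≤ v ∨ v < m →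
          run g A m (ballm A m m) v m N0 S0 s = some o →
          (∀ A' s' o', (row A' m) ≠ 0 → g A' s' = some o' →
            ∃ o'', check2 pats known f (m + 1) A' s' = some o'') → False := by
        intro g w v N0 S0 o hw hb hex hN0 hv hS0 _ hrun hg
        set T := Nat.ofBits (fun i : Fin m => decide (R w (φ i))) with hT
        have hTb : ∀ i, T.testBit i = true ↔ i < m ∧ R w (φ i) := by
          intro i
          by_cases h3 : i < m
          · rw [hT, Nat.testBit_ofBits_lt _ _ h3, decide_eq_true_eq]
            exact ⟨fun h => ⟨h3, h⟩, fun h => h.2⟩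
          · rw [hT, Nat.testBit_ofBits_ge _ _ (by omega)]
            constructor
            · intro h; simp at h
            · intro h; exact absurd h.1 h3
        have hTo : ∀ i, m ≤ i → T.testBit i = false := by
          intro i hi
          rw [← Bool.not_eq_true, hTb]
          omega
        have hrowbit : ∀ i j, j < m → ((row A i).testBit j = true ↔ A.testBit (32 * i + j) = true) := by
          intro i j hj
          rw [row_bit]
          have : j < 32 := by omega
          simp [this]
        obtain ⟨Sp', s', out', hS', hs'⟩ := run_complete g A m (ballm A m m) v T hTo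
          (by
            intro i j hi hj hij h1 h2
            rw [← Bool.not_eq_true]
            intro h3
            obtain ⟨h4, h5⟩ := (hTb i).1 h1
            obtain ⟨h6, h7⟩ := (hTb j).1 h2
            rw [row_bit] at h3
            have hj32 : j < 32 := by omega
            simp only [hj32, decide_true, Bool.true_and] at h3
            rw [ballm_bit A m m i j hi hj32 (by
              intro i j hj
              rw [row_bit]
              have : ¬ j < 32 := by omega
              simp [this]), Bool.or_eq_true] at h3
            rcases h3 with h8 | h8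
            · exact hR.tri w (φ i) (φ j) h5 ((he.adj i j h4 h6).2 ((hrowbit i j h6).1 h8))
                (hR.symm _ _ h7)
            · obtain ⟨k, h8, h9, h10⟩ := orRows_bit _ _ _ _ h8
              exact hR.four w (φ i) (φ k) (φ j) (fun h => hw k h8 h.symm)
                (fun h => hij (he.inj i j h4 h6 h)) h5
                ((he.adj i k h4 h8).2 ((hrowbit i k h8).1 h9))
                ((he.adj k j h8 h6).2 ((hrowbit k j h6).1 h10)) (hR.symm _ _ h7))
          m N0 S0 s o le_rfl
          (by
            intro j
            rw [Bool.eq_iff_iff, hN0, Bool.and_eq_true, hTb, Bool.or_eq_true, decide_eq_true_eq,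
              decide_eq_true_eq]
            constructor
            · rintro ⟨h3, rfl⟩; exact ⟨⟨h3, hv h3⟩, Or.inr rfl⟩
            · rintro ⟨⟨h3, h4⟩, h5 | rfl⟩
              · omega
              · exact ⟨h3, rfl⟩)
          hS0 hrun
        have he' := emb_extend hR.symm hR.irr he hm hw (N := T) (Sp := Sp') (fun i hi => by
          rw [hTb]; exact ⟨fun h => h.2, fun h => ⟨hi, h⟩⟩) hTo hb hS'
        have hrow : row (Pool.Agent.R140.PK.extend A m T Sp') m ≠ 0 := by
          obtain ⟨i, hi, hi'⟩ := hex
          intro h0
          have h3 : (row (Pool.Agent.R140.PK.extend A m T Sp') m).testBit i = true := by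
            rw [row_bit, Bool.and_eq_true, decide_eq_true_eq]
            refine ⟨by omega, ?_⟩
            rw [← he'.adj m i (by omega) (by omega)]
            rw [Function.update_self, Function.update_of_ne (by omega)]
            exact hi'
          rw [h0, Nat.zero_testBit] at h3
          simp at h3
        obtain ⟨o'', ho⟩ := hg _ _ _ hrow hs'
        exact ih _ _ _ _ _ he' (by omega) ho
      cases h2 : Nat.blt (Nat.div c 2) m
      swap
      · rw [h2] at h
        simp only [cond_true] at h
        have h2' : Nat.div c 2 < m := Nat.le_of_ble_eq_true h2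
        set v := Nat.div c 2 with hvdef
        cases h3 : Nat.ble (cnt (row A v) m) 2
        · rw [h3] at h; simp at h
        rw [h3] at h
        simp only [cond_true] at h
        have h3' : ((List.range m).filter (fun j => (row A v).testBit j)).length ≤ 2 := by
          rw [← cnt_eq]
          exact Nat.le_of_ble_eq_true h3
        obtain ⟨b, hb⟩ := he.nbr v h2'
        obtain ⟨w, hw1, hw2⟩ := hR.deg _ _ hb
          (((List.range m).filter (fun j => (row A v).testBit j)).map φ)
          (by rw [List.length_map]; exact h3')
        refine step (check2 pats known f (Nat.succ m)) w v _ _ _ ?_ ⟨_, hR.symm _ _ hw1⟩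
          ⟨v, h2', hR.symm _ _ hw1⟩ ?_ (fun _ => hR.symm _ _ hw1) ?_ (Or.inr h2') h ?_
        · rintro i hi rfl
          apply hw2
          rw [List.mem_map]
          refine ⟨i, ?_, rfl⟩
          rw [List.mem_filter, List.mem_range]
          refine ⟨hi, ?_⟩
          rw [row_bit, Bool.and_eq_true, decide_eq_true_eq]
          exact ⟨by omega, (he.adj _ _ h2' hi).1 hw1⟩
        · intro j
          rw [bit_bit, decide_eq_true_eq]
          constructor
          · rintro rfl; exact ⟨h2', rfl⟩
          · rintro ⟨_, rfl⟩; rfl
        · intro x
          have hmul : Nat.mul 32 v = 32 * v := rfl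
          rw [bit_bit, bit_bit, decide_eq_true_eq, decide_eq_true_eq, hmul]
          constructor
          · intro h; exact ⟨by omega, by omega⟩
          · rintro ⟨h, h'⟩; omega
        · intro A' s' o' _ ho
          exact ⟨o', ho⟩
      rw [h2] at h
      simp only [cond_false] at h
      cases h3 : Nat.ble m 17
      · rw [h3] at h; simp at h
      rw [h3] at h
      simp only [cond_true] at h
      have h3' : m ≤ 17 := Nat.le_of_ble_eq_true h3
      by_cases hcl : ∀ x ∈ (List.range m).map φ, ∀ y, R x y → y ∈ (List.range m).map φ
      · obtain ⟨b, hb⟩ := he.nbr 0 hpos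
        refine hR.closed _ _ hb ⟨(List.range m).map φ, by simpa using h3', ?_, hcl⟩
        rw [List.mem_map]
        exact ⟨0, List.mem_range.2 hpos, rfl⟩
      · push Not at hcl
        obtain ⟨x, hx, w, hxw, hw⟩ := hcl
        obtain ⟨i, hi, rfl⟩ := List.mem_map.1 hx
        rw [List.mem_range] at hi
        refine step _ w m _ _ _ ?_ ⟨_, hR.symm _ _ hxw⟩
          ⟨i, hi, hR.symm _ _ hxw⟩ ?_ (fun h => absurd h (lt_irrefl _)) ?_ (Or.inl le_rfl) h ?_
        · rintro j hj rfl
          exact hw (List.mem_map.2 ⟨j, List.mem_range.2 hj, rfl⟩)
        · intro j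
          rw [Nat.zero_testBit]
          constructor
          · intro h; simp at h
          · rintro ⟨h, _⟩; omega
        · intro x
          rw [Nat.zero_testBit, Nat.zero_testBit]
          simp
        · intro A' s' o' hne ho
          cases h4 : Nat.beq (row A' m) 0
          · rw [h4] at ho
            exact ⟨o', ho⟩
          · exact absurd (Nat.eq_of_beq_eq_true h4) hne

end

/-- the matrix of a path -/
def pathM : Nat → Nat
  | 0 => 0
  | 1 => 0
  | k + 2 => Nat.lor (pathM (k + 1))
      (Nat.lor (Nat.shiftLeft 1 (32 * k + (k + 1))) (Nat.shiftLeft 1 (32 * (k + 1) + k)))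

/-- the path with `k` vertices -/
def pathP (k : Nat) : List Bool := List.replicate k true

/-- the bits of the matrix of a path are right -/
def okM (k : Nat) : Bool :=
  Nat.blt (pathM k) (2 ^ (32 * k)) && (List.range k).all (fun i => (List.range 32).all (fun j =>
    (pathM k).testBit (32 * i + j) == (decide (j < k) && (decide (i + 1 = j) || decide (j + 1 = i)))))

theorem emb_path {V : Type} {R : V → V → Prop} (hsymm : ∀ a b, R a b → R b a)
    (hirr : ∀ a, ¬ R a a) {k : Nat} (hk : k < 32) (hok : okM k = true) {p : Nat → V}
    (h1 : ∀ i, i < k → ∃ b, R (p i) b)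
    (h2 : ∀ i j, i < j → j < k → p i ≠ p j ∧ (R (p i) (p j) ↔ i + 1 = j)) :
    Emb R k (pathM k) p := by
  unfold okM at hok
  rw [Bool.and_eq_true, List.all_eq_true] at hok
  obtain ⟨hlt, hall⟩ := hok
  have hlt' : pathM k < 2 ^ (32 * k) := Nat.le_of_ble_eq_true hlt
  have hb : ∀ i j, i < k → j < 32 → (pathM k).testBit (32 * i + j) =
      (decide (j < k) && (decide (i + 1 = j) || decide (j + 1 = i))) := by
    intro i j hi hj
    have h3 := hall i (List.mem_range.2 hi)
    rw [List.all_eq_true] at h3
    have h4 := h3 j (List.mem_range.2 hj)
    simpa using h4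
  refine ⟨?_, ?_, ?_, h1⟩
  · intro i j hi hj
    rw [hb i j hi (by omega)]
    simp only [hj, decide_true, Bool.true_and, Bool.or_eq_true, decide_eq_true_eq]
    rcases lt_trichotomy i j with h | h | h
    · rw [(h2 i j h hj).2]
      omega
    · subst h
      constructor
      · intro h; exact absurd h (hirr _)
      · intro h; omega
    · constructor
      · intro h3
        exact Or.inr ((h2 j i h hi).2.1 (hsymm _ _ h3))
      · intro h3
        exact hsymm _ _ ((h2 j i h hi).2.2 (by omega))
  · intro i j hij hj
    by_cases hi : i < k
    · rw [hb i j hi hj]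
      have : ¬ j < k := by omega
      simp [this]
    · apply Nat.testBit_lt_two_pow
      refine lt_of_lt_of_le hlt' (Nat.pow_le_pow_right (by omega) (by omega))
  · intro i j hi hj hij
    rcases lt_trichotomy i j with h | h | h
    · exact absurd hij (h2 i j h hj).1
    · exact h
    · exact absurd hij.symm (h2 j i h hi).1

end Pool.Agent.Run7.h878.LF
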