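import Pool.Agent.Run7.h878.LF.Forest
import Pool.Agent.R890.FF.Alg
import Pool.Agent.R890.FF.HfpFin
import Pool.Agent.R890.FF.Oc5

set_option autoImplicit false
set_option linter.unusedSectionVars false
set_option linter.unusedVariables false

/-!
# Classes of graphs which are closed under the contraction of the other side of a class of a
Petersen quotient
-/

namespace Pool.Agent.Run7.h878.LF

open Finset Relation Pool.Agent.TH362.TF Pool.Agent.TH362.TF.Four Pool.Agent.R890.FF
open Pool.Agent.R140.PK Pool.Agent.TH362.TF.Contr Pool.Agent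
open Pool.Agent.TH676.A (Alg Ex2 FlowOn bd crs nl mem_nl)

variable {V E : Type} [Fintype V] [DecidableEq V] [Fintype E] [DecidableEq E]

/-- the other side of a class of a Petersen quotient contains a connected set which contains all
ends outside of the edges leaving the class -/
theorem other_side {s t : E → V} (hn : N1 s t univ) {κ : V → Fin 10} (hκ : IsPQ s t univ κ)
    (k : Fin 10) : ∃ (A : Finset V) (a : V), a ∈ A ∧ ConnS s t univ (fun v => v ∈ A) ∧
      (∀ v ∈ A, κ v ≠ k) ∧ (∀ e, κ (s e) = k → κ (t e) ≠ k → t e ∈ A) ∧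
      (∀ e, κ (t e) = k → κ (s e) ≠ k → s e ∈ A) := by
  classical
  obtain ⟨c, hck, e0, he0⟩ : ∃ c : V, κ c = k ∧
      ∃ e0 : E, (s e0 = c ∧ κ (t e0) ≠ κ c) ∨ (t e0 = c ∧ κ (s e0) ≠ κ c) := by
    obtain ⟨e, _, he⟩ := hκ.2 k (nb k 0) (padj_nb k 0)
    have h4 := nb_ne k 0
    rcases he with ⟨a, b⟩ | ⟨a, b⟩
    · refine ⟨s e, a, e, Or.inl ⟨rfl, ?_⟩⟩
      rw [a, b]
      exact h4
    · refine ⟨t e, b, e, Or.inr ⟨rfl, ?_⟩⟩
      rw [a, b]
      exact h4
  have hends : ∀ (e : E), (κ (s e) = k → κ (t e) ≠ k → s e ∈ Bc s t κ c) ∧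
      (κ (t e) = k → κ (s e) ≠ k → t e ∈ Bc s t κ c) := by
    intro e
    have h2 := Bc_ends s t hn κ hκ c e0 he0 e
    rw [hck] at h2
    exact h2
  have hclass : ∀ (v : V), v ∈ Bc s t κ c → κ v = k := by
    intro v hv
    rw [Bc_class s t κ c v hv, hck]
  have hclosed : ∀ (e : E), κ (s e) = k → κ (t e) = k →
      (s e ∈ Bc s t κ c ↔ t e ∈ Bc s t κ c) := by
    intro e h1 h2
    exact Bc_closed s t κ c e (by rw [h1, hck]) (by rw [h2, hck])
  set D : Finset V := univ.filter (fun v => v ∈ Bc s t κ c) with hD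
  have hDm : ∀ v, v ∈ D ↔ v ∈ Bc s t κ c := by intro v; simp [hD]
  have hcut : cu s t D = cut s t univ (fun v => decide (κ v = k)) := by
    ext e
    rw [mem_cu, hDm, hDm]
    unfold cut
    rw [mem_filter]
    simp only [mem_univ, true_and, ne_eq, decide_eq_decide]
    have h1 := hends e
    have h2 := hclass (s e)
    have h3 := hclass (t e)
    have h4 := hclosed e
    tauto
  have hcard : (cu s t D).card = 3 := by
    rw [hcut]
    exact hκ.1 k
  obtain ⟨A2, hA1, hA2, hA3, hA4, a2, ha2⟩ := three_cut hn hcard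
  have hcross : ∀ e, e ∈ cu s t A2 ↔ ¬ (κ (s e) = k ↔ κ (t e) = k) := by
    intro e
    rw [hA3, hcut]
    unfold cut
    rw [mem_filter]
    simp only [mem_univ, true_and, ne_eq, decide_eq_decide]
  have h5 : ∀ e, κ (s e) = k → κ (t e) ≠ k → t e ∈ A2 := by
    intro e h1 h2
    have h3 := (hcross e).2 (fun h => h2 (h.1 h1))
    rw [mem_cu] at h3
    have h4 : s e ∉ A2 := fun h => (disjoint_left.1 hA1) ((hDm _).2 ((hends e).1 h1 h2)) h
    tauto
  have h6 : ∀ e, κ (t e) = k → κ (s e) ≠ k → s e ∈ A2 := by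
    intro e h1 h2
    have h3 := (hcross e).2 (fun h => h2 (h.2 h1))
    rw [mem_cu] at h3
    have h4 : t e ∉ A2 := fun h => (disjoint_left.1 hA1) ((hDm _).2 ((hends e).2 h1 h2)) h
    tauto
  -- a vertex of A2 outside of the class
  obtain ⟨w, hw, hwk⟩ : ∃ w ∈ A2, κ w ≠ k := by
    rcases he0 with ⟨h1, h2⟩ | ⟨h1, h2⟩
    · refine ⟨t e0, h5 e0 (by rw [h1, hck]) (by rw [← hck]; exact h2), by rw [← hck]; exact h2⟩
    · refine ⟨s e0, h6 e0 (by rw [h1, hck]) (by rw [← hck]; exact h2), by rw [← hck]; exact h2⟩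
  refine ⟨A2, a2, ha2, hA2, ?_, h5, h6⟩
  intro v hv
  have h7 := hA2 w hw v hv
  clear hv
  induction h7 with
  | refl => exact hwk
  | tail _ hstep ih =>
    rename_i p q
    obtain ⟨⟨e, _, hE⟩, hp, hq⟩ := hstep
    intro hqk
    rcases hE with ⟨a1, a2⟩ | ⟨a1, a2⟩
    · have h8 := (hends e).2 (by rw [a2]; exact hqk) (by rw [a1]; exact ih)
      rw [a2] at h8
      exact (disjoint_left.1 hA1) ((hDm _).2 h8) hq
    · have h8 := (hends e).1 (by rw [a1]; exact hqk) (by rw [a2]; exact ih)
      rw [a1] at h8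
      exact (disjoint_left.1 hA1) ((hDm _).2 h8) hq

/-- images of linear forests -/
theorem HasF.map {R R' : V → V → Prop} (hs : ∀ a b, R a b → R b a) (Q : V → Prop)
    (hQ : ∀ a b, R a b → Q a) (ι : V → V)
    (h1 : ∀ a b, Q a → Q b → a ≠ b → ι a ≠ ι b ∧ (R a b ↔ R' (ι a) (ι b)))
    (hirr : ∀ a, ¬ R a a) {ks : List ℕ} (h : HasF R ks) : HasF R' ks := by
  obtain ⟨P, q1, q2, q3, q4⟩ := h
  have hq : ∀ l ∈ P, ∀ x ∈ l, Q x := by
    intro l hl x hx
    obtain ⟨b, hb⟩ := q2 l hl x hx
    exact hQ _ _ hb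
  refine ⟨P.map (List.map ι), ?_, ?_, ?_, ?_⟩
  · rw [← q1, List.map_map]
    refine List.map_congr_left (fun l _ => ?_)
    simp
  · intro l hl x hx
    obtain ⟨l0, hl0, rfl⟩ := List.mem_map.1 hl
    obtain ⟨y, hy, rfl⟩ := List.mem_map.1 hx
    obtain ⟨b, hb⟩ := q2 l0 hl0 y hy
    have hne : y ≠ b := fun h => hirr b (h ▸ hb)
    exact ⟨ι b, (h1 y b (hQ _ _ hb) (hQ _ _ (hs _ _ hb)) hne).2.1 hb⟩
  · intro l hl
    obtain ⟨l0, hl0, rfl⟩ := List.mem_map.1 hl
    intro i j hi hj hij
    rw [List.length_map] at hi hj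
    simp only [List.getElem_map]
    obtain ⟨a1, a2⟩ := q3 l0 hl0 i j hi hj hij
    obtain ⟨b1, b2⟩ := h1 _ _ (hq l0 hl0 _ (List.getElem_mem hi)) (hq l0 hl0 _ (List.getElem_mem hj)) a1
    exact ⟨b1, b2.symm.trans a2⟩
  · rw [List.pairwise_map]
    refine List.Pairwise.imp_of_mem ?_ q4
    intro l l' hl hl' hll x hx y hy
    obtain ⟨x', hx', rfl⟩ := List.mem_map.1 hx
    obtain ⟨y', hy', rfl⟩ := List.mem_map.1 hy
    obtain ⟨a1, a2⟩ := hll x' hx' y' hy'
    obtain ⟨b1, b2⟩ := h1 _ _ (hq l hl _ hx') (hq l' hl' _ hy') a1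
    exact ⟨b1, fun h => a2 (b2.2 h)⟩

/-- the other side of a class of a Petersen quotient -/
theorem HasF.petersen {s t : E → V} (hn : N1 s t univ) {κ : V → Fin 10} (hκ : IsPQ s t univ κ)
    {k : Fin 10} {z : V} (hz : κ z ≠ k) {ks : List ℕ}
    (h : HasF (Nb (fun e => if κ (s e) = k then s e else z)
      (fun e => if κ (t e) = k then t e else z) univ) ks) : HasF (Nb s t univ) ks := by
  classical
  obtain ⟨A, a, ha, hA, hA1, hA2, hA3⟩ := other_side hn hκ k
  have hFC : FC s t univ (fun v => if v ∈ A then a else v) := by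
    intro x y hxy
    have hxy' : (if x ∈ A then a else x) = (if y ∈ A then a else y) := hxy
    by_cases hx : x ∈ A
    · have hy : y ∈ A := by
        by_contra hy
        rw [if_pos hx, if_neg hy] at hxy'
        exact hy (hxy' ▸ ha)
      refine St.mono ?_ (hA x hx y hy)
      intro u hu
      show (if u ∈ A then a else u) = (if x ∈ A then a else x)
      rw [if_pos hu, if_pos hx]
    · have hy : y ∉ A := by
        intro hy
        rw [if_neg hx, if_pos hy] at hxy'
        exact hx (hxy' ▸ ha)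
      rw [if_neg hx, if_neg hy] at hxy'
      rw [hxy']
  refine HasF.lift hFC ?_
  have hak : κ a ≠ k := hA1 a ha
  refine HasF.map (fun a b => nb_comm) (fun v => κ v = k ∨ v = z) ?_
    (fun v => if v = z then a else v) ?_ (fun a ha => ha.1 rfl) h
  · rintro x y ⟨_, e, _, hE⟩
    rcases hE with ⟨h1, h2⟩ | ⟨h1, h2⟩
    · change (if κ (s e) = k then s e else z) = x at h1
      by_cases h3 : κ (s e) = k
      · rw [if_pos h3] at h1; exact Or.inl (h1 ▸ h3)
      · rw [if_neg h3] at h1; exact Or.inr h1.symm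
    · change (if κ (t e) = k then t e else z) = x at h2
      by_cases h3 : κ (t e) = k
      · rw [if_pos h3] at h2; exact Or.inl (h2 ▸ h3)
      · rw [if_neg h3] at h2; exact Or.inr h2.symm
  · intro x y hx hy hxy
    -- the values of the two maps
    have key1 : ∀ v, κ v = k → ∀ u, ((if κ u = k then u else z) = v ↔ u = v) := by
      intro v hv u
      by_cases h1 : κ u = k
      · rw [if_pos h1]
      · rw [if_neg h1]
        exact ⟨fun h => absurd (h ▸ hv) hz, fun h => absurd (h ▸ hv) h1⟩
    have key2 : ∀ v, κ v = k → ∀ u, ((if u ∈ A then a else u) = v ↔ u = v) := by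
      intro v hv u
      by_cases h1 : u ∈ A
      · rw [if_pos h1]
        exact ⟨fun h => absurd (h ▸ hv) hak, fun h => absurd (h ▸ hv) (hA1 u h1)⟩
      · rw [if_neg h1]
    have key3 : ∀ u, ((if κ u = k then u else z) = z ↔ κ u ≠ k) := by
      intro u
      by_cases h1 : κ u = k
      · rw [if_pos h1]
        exact ⟨fun h => absurd (h ▸ h1) hz, fun h => absurd h1 h⟩
      · rw [if_neg h1]
        exact ⟨fun _ => h1, fun _ => rfl⟩
    have key4 : ∀ u, ((if u ∈ A then a else u) = a ↔ u ∈ A) := by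
      intro u
      by_cases h1 : u ∈ A
      · rw [if_pos h1]
        exact ⟨fun _ => h1, fun _ => rfl⟩
      · rw [if_neg h1]
        exact ⟨fun h => absurd (h ▸ ha) h1, fun h => absurd h h1⟩
    have hxz : κ x = k → x ≠ z := fun h h' => hz (h' ▸ h)
    -- a vertex of the class and the vertex z
    have key5 : ∀ v, κ v = k →
        (Nb (fun e => if κ (s e) = k then s e else z) (fun e => if κ (t e) = k then t e else z)
          univ v z ↔
        Nb (fun e => if s e ∈ A then a else s e) (fun e => if t e ∈ A then a else t e)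
          univ v a) := by
      intro v hv
      have hvz : z ≠ v := fun h' => hz (h' ▸ hv)
      have hva : a ≠ v := fun h' => hak (h' ▸ hv)
      unfold Nb
      constructor
      · rintro ⟨_, e, he, hE⟩
        refine ⟨hva, e, he, ?_⟩
        rcases hE with ⟨h1, h2⟩ | ⟨h1, h2⟩
        · have h3 := (key1 v hv (s e)).1 h1
          have h4 := (key3 (t e)).1 h2
          exact Or.inl ⟨(key2 v hv (s e)).2 h3, (key4 (t e)).2 (hA2 e (by rw [h3]; exact hv) h4)⟩
        · have h3 := (key1 v hv (t e)).1 h2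
          have h4 := (key3 (s e)).1 h1
          exact Or.inr ⟨(key4 (s e)).2 (hA3 e (by rw [h3]; exact hv) h4), (key2 v hv (t e)).2 h3⟩
      · rintro ⟨_, e, he, hE⟩
        refine ⟨hvz, e, he, ?_⟩
        rcases hE with ⟨h1, h2⟩ | ⟨h1, h2⟩
        · exact Or.inl ⟨(key1 v hv (s e)).2 ((key2 v hv (s e)).1 h1),
            (key3 (t e)).2 (hA1 _ ((key4 (t e)).1 h2))⟩
        · exact Or.inr ⟨(key3 (s e)).2 (hA1 _ ((key4 (s e)).1 h1)),
            (key1 v hv (t e)).2 ((key2 v hv (t e)).1 h2)⟩
    beta_reduce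
    rcases hx with hx | rfl
    · rcases hy with hy | rfl
      · have hyz : y ≠ z := fun h' => hz (h' ▸ hy)
        rw [if_neg (hxz hx), if_neg hyz]
        refine ⟨hxy, ?_⟩
        unfold Nb Ends
        simp only [key1 x hx, key1 y hy, key2 x hx, key2 y hy]
      · rw [if_neg (hxz hx), if_pos rfl]
        exact ⟨fun h => hak (h ▸ hx), key5 x hx⟩
    · have hy' : κ y = k := by
        rcases hy with hy | hy
        · exact hy
        · exact absurd hy.symm hxy
      rw [if_pos rfl, if_neg hxy.symm]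
      refine ⟨fun h => hak (h ▸ hy'), ?_⟩
      constructor
      · intro h; exact nb_comm ((key5 y hy').1 (nb_comm h))
      · intro h; exact nb_comm ((key5 y hy').2 (nb_comm h))

/-- classes of graphs with flow-or-Petersen theorems, closed under the contraction of the other side
of a class of a Petersen quotient -/
def Nice (Cl : (E → V) → (E → V) → Prop) : Prop :=
  ∀ (s t : E → V), Cl s t → N1 s t univ → NZ s t univ ∨ ∃ κ : V → Fin 10, IsPQ s t univ κ ∧
    ∀ (k : Fin 10) (z : V), κ z ≠ k →
      Cl (fun e => if κ (s e) = k then s e else z) (fun e => if κ (t e) = k then t e else z)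

section
variable {Γ : Type} [AddCommGroup Γ] {A : Γ → Prop}

/-- classes of graphs and flows with allowed values -/
theorem alg_classP (hA : Alg A) {val : Fin 10 → Fin 10 → Γ} (hv : Pet A val)
    (h4 : ∃ σ : F →+ Γ, ∀ x, x ≠ 0 → A (σ x))
    {Cl : (E → V) → (E → V) → Prop} (hC : Nice Cl) :
    ∀ (n : ℕ) (s t : E → V), (nl s t).card = n → Cl s t → N1 s t univ → FlowOn A s t ∅ ∅ := by
  classical
  intro n
  induction n using Nat.strong_induction_on with
  | _ n ih =>
    intro s t hn hCl hN
    rcases hC s t hCl hN with ⟨φ, h1, h2⟩ | ⟨κ, hκ, hC1⟩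
    · obtain ⟨σ, hσ⟩ := h4
      refine ⟨fun e => σ (φ e), fun v => ?_, fun x hx => absurd hx (notMem_empty x),
        fun x _ _ => hσ _ (h1 x (mem_univ x))⟩
      have h3 : bd s t (fun e => σ (φ e)) v = σ (∑ e, ((if s e = v then φ e else 0) +
          (if t e = v then φ e else 0))) := by
        unfold bd
        rw [map_sum]
        refine Finset.sum_congr rfl fun e _ => ?_
        rw [map_add]
        split_ifs <;> simp
      rw [h3]
      have h5 : (∑ e, ((if s e = v then φ e else 0) + (if t e = v then φ e else 0))) = 0 := h2 v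
      rw [h5, map_zero]
    · refine alg_pq hA hv hκ fun k => ?_
      obtain ⟨l, m, hlm, hlk, hmk, hne⟩ := ex_pair k
      obtain ⟨e0, -, he0⟩ := hκ.2 l m hlm
      have hz : κ (s e0) ≠ k ∧ κ (t e0) ≠ k ∧ κ (s e0) ≠ κ (t e0) := by
        rcases he0 with ⟨h6, h7⟩ | ⟨h6, h7⟩
        · rw [h6, h7]; exact ⟨hlk, hmk, hne⟩
        · rw [h6, h7]; exact ⟨hmk, hlk, hne.symm⟩
      set z := s e0 with hzd
      set π : V → V := fun v => if κ v = k then v else z with hπ
      have hlt : (nl (fun e => π (s e)) (fun e => π (t e))).card < n := by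
        rw [← hn]
        refine card_lt_card ⟨?_, ?_⟩
        · intro x hx
          rw [mem_nl] at hx ⊢
          exact fun h => hx (by simp only [h])
        · intro h
          have h5 : e0 ∈ nl s t := by
            rw [mem_nl]
            exact fun h6 => hz.2.2 (by rw [hzd, h6])
          have h6 := h h5
          rw [mem_nl] at h6
          apply h6
          simp only [hπ]
          rw [if_neg hz.2.1, if_neg hz.1]
      obtain ⟨g, g1, -, g2⟩ := ih _ hlt _ _ rfl (hC1 k z hz.1)
        (quot_n1 (S' := univ) (f := π) (Subset.refl _) (fun e h h' => absurd h h') hN)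
      refine ⟨g, fun e => g2 e (notMem_empty e) (notMem_empty e), fun v hvk => ?_⟩
      rw [← g1 v]
      have hiff : ∀ x : V, π x = v ↔ x = v := by
        intro x
        simp only [hπ]
        by_cases h6 : κ x = k
        · rw [if_pos h6]
        · rw [if_neg h6]
          constructor
          · intro h7
            exact absurd (h7 ▸ hvk) hz.1
          · rintro rfl
            exact absurd hvk h6
      unfold bd
      refine Finset.sum_congr rfl fun e _ => ?_
      simp only [hiff]

/-- classes of graphs and flows with allowed values, oriented version -/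
theorem sgn_classP (hA : Hom3 A) {val : Fin 10 → Fin 10 → Γ} (hv : PetS A val)
    (h4 : ∀ s t : E → V, NZ s t univ → ∃ f : E → Γ, (∀ e, A (f e)) ∧ ∀ v, net s t f v = 0)
    {Cl : (E → V) → (E → V) → Prop} (hC : Nice Cl) :
    ∀ (n : ℕ) (s t : E → V), (univ.filter (fun e => s e ≠ t e)).card = n → Cl s t →
      N1 s t univ → ∃ f : E → Γ, (∀ e, A (f e)) ∧ ∀ v, net s t f v = 0 := by
  classical
  intro n
  induction n using Nat.strong_induction_on with
  | _ n ih =>
    intro s t hn hCl hN
    rcases hC s t hCl hN with hz | ⟨κ, hκ, hC1⟩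
    · exact h4 s t hz
    · refine sgn_pq hA hv hκ fun k => ?_
      obtain ⟨l, m, hlm, hlk, hmk, hne⟩ := ex_pair' k
      obtain ⟨e0, -, he0⟩ := hκ.2 l m hlm
      have hz : κ (s e0) ≠ k ∧ κ (t e0) ≠ k ∧ κ (s e0) ≠ κ (t e0) := by
        rcases he0 with ⟨h6, h7⟩ | ⟨h6, h7⟩
        · rw [h6, h7]; exact ⟨hlk, hmk, hne⟩
        · rw [h6, h7]; exact ⟨hmk, hlk, hne.symm⟩
      set z := s e0 with hzd
      set π : V → V := fun v => if κ v = k then v else z with hπ
      have hlt : (univ.filter (fun e => π (s e) ≠ π (t e))).card < n := by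
        rw [← hn]
        refine card_lt_card ⟨?_, ?_⟩
        · intro x hx
          rw [mem_filter] at hx ⊢
          exact ⟨mem_univ _, fun h => hx.2 (by rw [h])⟩
        · intro h
          have h5 : e0 ∈ univ.filter (fun e => s e ≠ t e) := by
            rw [mem_filter]
            exact ⟨mem_univ _, fun h6 => hz.2.2 (by rw [hzd, h6])⟩
          have h6 := h h5
          rw [mem_filter] at h6
          apply h6.2
          simp only [hπ]
          rw [if_neg hz.2.1, if_neg hz.1]
      obtain ⟨g, g2, g1⟩ := ih _ hlt _ _ rfl (hC1 k z hz.1)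
        (quot_n1 (S' := univ) (f := π) (Subset.refl _) (fun e h h' => absurd h h') hN)
      refine ⟨g, g2, fun v hvk => ?_⟩
      rw [← g1 v]
      have hiff : ∀ x : V, π x = v ↔ x = v := by
        intro x
        simp only [hπ]
        by_cases h6 : κ x = k
        · rw [if_pos h6]
        · rw [if_neg h6]
          constructor
          · intro h7
            exact absurd (h7 ▸ hvk) hz.1
          · rintro rfl
            exact absurd hvk h6
      unfold net
      refine Finset.sum_congr rfl fun e _ => ?_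
      simp only [hiff]

end

/-- classes of graphs and pairs of a 2-flow and a 4-flow -/
theorem all_classP {Cl : (E → V) → (E → V) → Prop} (hC : Nice Cl) :
    ∀ (n : ℕ) (s t : E → V), (univ.filter (fun e => s e ≠ t e)).card = n → Cl s t →
      N1 s t univ → All s t := by
  classical
  intro n
  induction n using Nat.strong_induction_on with
  | _ n ih =>
    intro s t hn hCl hN
    rcases hC s t hCl hN with hz | ⟨κ, hκ, hC1⟩
    · exact nz_all s t hz
    · have h1 : ∀ k, ∃ e0 : E, κ (s e0) ≠ k ∧ κ (t e0) ≠ k ∧ κ (s e0) ≠ κ (t e0) := by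
        intro k
        obtain ⟨l, m, hlm, hlk, hmk, hne⟩ := ex_pair2 k
        obtain ⟨e0, -, he0⟩ := hκ.2 l m hlm
        refine ⟨e0, ?_⟩
        rcases he0 with ⟨h6, h7⟩ | ⟨h6, h7⟩
        · rw [h6, h7]; exact ⟨hlk, hmk, hne⟩
        · rw [h6, h7]; exact ⟨hmk, hlk, hne.symm⟩
      choose e0 z1 z2 z3 using h1
      refine all_pq hκ (fun k => s (e0 k)) z1 fun k => ?_
      refine ih _ ?_ _ _ rfl (hC1 k (s (e0 k)) (z1 k))
        (quot_n1 (S' := univ) (f := fun v => if κ v = k then v else s (e0 k)) (Subset.refl _)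
          (fun e h h' => absurd h h') hN)
      rw [← hn]
      refine card_lt_card ⟨?_, ?_⟩
      · intro x hx
        rw [mem_filter] at hx ⊢
        exact ⟨mem_univ _, fun h => hx.2 (by rw [h])⟩
      · intro h
        have h5 : e0 k ∈ univ.filter (fun e => s e ≠ t e) := by
          rw [mem_filter]
          exact ⟨mem_univ _, fun h6 => z3 k (by rw [h6])⟩
        have h6 := h h5
        rw [mem_filter] at h6
        apply h6.2
        rw [if_neg (z1 k), if_neg (z2 k)]

end Pool.Agent.Run7.h878.LF
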