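import Pool.Agent.Run7.h878.LF.Step
import Pool.Agent.R140.PK.Three

set_option autoImplicit false
set_option linter.unusedSectionVars false
set_option linter.unusedVariables false

/-!
# Induced linear forests: contractions of connected sets, Petersen quotients
-/

namespace Pool.Agent.Run7.h878.LF

open Finset Relation Pool.Agent.TH362.TF Pool.Agent.TH362.TF.Four Pool.Agent.R890.FF
open Pool.Agent.R140.PK Pool.Agent.TH362.TF.Contr Pool.Agent

/-- the vertices of the list, in this order, are an induced path -/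
def IndP {V : Type} (R : V → V → Prop) (l : List V) : Prop :=
  ∀ (i j : ℕ) (hi : i < l.length) (hj : j < l.length), i < j →
    l[i] ≠ l[j] ∧ (R l[i] l[j] ↔ i + 1 = j)

/-- an induced linear forest without isolated vertices of the graph; its paths have the numbers
of vertices in the list `ks` -/
def HasF {V : Type} (R : V → V → Prop) (ks : List ℕ) : Prop :=
  ∃ P : List (List V), P.map List.length = ks ∧ (∀ l ∈ P, ∀ x ∈ l, ∃ b, R x b) ∧
    (∀ l ∈ P, IndP R l) ∧ P.Pairwise (fun l l' => ∀ x ∈ l, ∀ y ∈ l', x ≠ y ∧ ¬ R x y)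

/-- the linear forest as a list of Booleans -/
def flat : List ℕ → List Bool
  | [] => []
  | k :: ks => (false :: List.replicate (k - 1) true) ++ flat ks

theorem flat_length : ∀ ks : List ℕ, (∀ k ∈ ks, 0 < k) → (flat ks).length = ks.sum := by
  intro ks
  induction ks with
  | nil => intro _; rfl
  | cons k ks ih =>
    intro h
    have h1 := h k (by simp)
    have h2 := ih (fun k hk => h k (by simp [hk]))
    rw [flat, List.length_append, h2, List.length_cons, List.length_replicate, List.sum_cons]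
    omega

/-- from the flat form to lists of paths -/
theorem hasF_of_pat {V : Type} {R : V → V → Prop} (hs : ∀ a b, R a b → R b a) :
    ∀ (ks : List ℕ), (∀ k ∈ ks, 0 < k) →
    ∀ p : ℕ → V, (∀ i, i < (flat ks).length → ∃ b, R (p i) b) →
      (∀ i j, i < j → j < (flat ks).length → p i ≠ p j ∧
        (R (p i) (p j) ↔ (i + 1 = j ∧ (flat ks).getD j false = true))) →
      ∃ P : List (List V), P.map List.length = ks ∧ (∀ l ∈ P, ∀ x ∈ l, ∃ b, R x b) ∧
        (∀ l ∈ P, IndP R l) ∧ P.Pairwise (fun l l' => ∀ x ∈ l, ∀ y ∈ l', x ≠ y ∧ ¬ R x y) ∧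
        ∀ l ∈ P, ∀ x ∈ l, ∃ i, i < (flat ks).length ∧ x = p i := by
  intro ks
  induction ks with
  | nil =>
    intro _ p _ _
    exact ⟨[], rfl, by simp, by simp, List.Pairwise.nil, by simp⟩
  | cons k ks ih =>
    intro hpos p h1 h2
    have hk : 0 < k := hpos k (by simp)
    have hlen : (flat (k :: ks)).length = k + (flat ks).length := by
      rw [flat, List.length_append, List.length_cons, List.length_replicate]
      omega
    have hg1 : ∀ j, 0 < j → j < k → (flat (k :: ks)).getD j false = true := by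
      intro j hj hjk
      rw [flat, List.getD_append _ _ _ _ (by simp; omega)]
      obtain ⟨j', rfl⟩ : ∃ j', j = j' + 1 := ⟨j - 1, by omega⟩
      rw [List.getD_cons_succ, List.getD_eq_getElem _ _ (by simp; omega), List.getElem_replicate]
    have hg2 : ∀ j, (flat (k :: ks)).getD (k + j) false = (flat ks).getD j false := by
      intro j
      rw [flat, List.getD_append_right _ _ _ _ (by simp; omega)]
      congr 1
      simp
      omega
    have hg3 : (flat ks).getD 0 false = false := by
      cases ks with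
      | nil => rfl
      | cons k' ks' => rfl
    obtain ⟨P, q1, q2, q3, q4, q5⟩ := ih (fun k hk => hpos k (by simp [hk])) (fun i => p (k + i))
      (fun i hi => h1 (k + i) (by omega)) (fun i j hij hj => by
        obtain ⟨a1, a2⟩ := h2 (k + i) (k + j) (by omega) (by omega)
        refine ⟨a1, a2.trans ?_⟩
        rw [hg2]
        constructor
        · rintro ⟨b1, b2⟩; exact ⟨by omega, b2⟩
        · rintro ⟨b1, b2⟩; exact ⟨by omega, b2⟩)
    refine ⟨(List.range k).map p :: P, ?_, ?_, ?_, ?_, ?_⟩
    · rw [List.map_cons, q1, List.length_map, List.length_range]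
    · intro l hl x hx
      rcases List.mem_cons.1 hl with rfl | hl
      · obtain ⟨i, hi, rfl⟩ := List.mem_map.1 hx
        exact h1 i (by have := List.mem_range.1 hi; omega)
      · exact q2 l hl x hx
    · intro l hl
      rcases List.mem_cons.1 hl with rfl | hl
      · intro i j hi hj hij
        rw [List.length_map, List.length_range] at hi hj
        obtain ⟨a1, a2⟩ := h2 i j hij (by omega)
        simp only [List.getElem_map, List.getElem_range]
        refine ⟨a1, a2.trans ?_⟩
        rw [hg1 j (by omega) hj]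
        simp
      · exact q3 l hl
    · refine List.Pairwise.cons ?_ q4
      intro l hl x hx y hy
      obtain ⟨i, hi, rfl⟩ := List.mem_map.1 hx
      have hi' := List.mem_range.1 hi
      obtain ⟨j, hj, rfl⟩ := q5 l hl y hy
      obtain ⟨a1, a2⟩ := h2 i (k + j) (by omega) (by omega)
      refine ⟨a1, fun h => ?_⟩
      obtain ⟨b1, b2⟩ := a2.1 h
      have hj0 : j = 0 := by omega
      subst hj0
      rw [hg2, hg3] at b2
      simp at b2
    · intro l hl x hx
      rcases List.mem_cons.1 hl with rfl | hl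
      · obtain ⟨i, hi, rfl⟩ := List.mem_map.1 hx
        exact ⟨i, by have := List.mem_range.1 hi; omega, rfl⟩
      · obtain ⟨i, hi, rfl⟩ := q5 l hl x hx
        exact ⟨k + i, by omega, rfl⟩

theorem HasPat.hasF {V : Type} {R : V → V → Prop} (hs : ∀ a b, R a b → R b a) {ks : List ℕ}
    (hpos : ∀ k ∈ ks, 0 < k) (h : HasPat R (flat ks)) : HasF R ks := by
  obtain ⟨p, h1, h2⟩ := h
  obtain ⟨P, q1, q2, q3, q4, -⟩ := hasF_of_pat hs ks hpos p h1 h2
  exact ⟨P, q1, q2, q3, q4⟩

section
variable {V E : Type} [Fintype V] [DecidableEq V] [DecidableEq E]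

/-- induced paths of a contraction can be lifted -/
theorem lift_path' {s t : E → V} {S : Finset E} {π : V → V} (hπ : FC s t S π) {K : ℕ} (hK : 2 ≤ K)
    (q : Fin K → V) (hq : Function.Injective q)
    (hq' : ∀ i j : Fin K, i < j →
      (Nb (fun e => π (s e)) (fun e => π (t e)) S (q i) (q j) ↔ i.val + 1 = j.val)) :
    ∃ p : Fin K → V, Function.Injective p ∧
      (∀ i j : Fin K, i < j → (Nb s t S (p i) (p j) ↔ i.val + 1 = j.val)) ∧
      ∀ i, ∃ j, π (p i) = q j := by
  classical
  set U : V → Prop := fun x => ∃ i, π x = q i with hU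
  let Γ : SimpleGraph V :=
    { Adj := fun u w => Nb s t S u w ∧ U u ∧ U w
      symm := ⟨fun u w h => ⟨nb_comm h.1, h.2.2, h.2.1⟩⟩
      loopless := ⟨fun u h => h.1.1 rfl⟩ }
  have hreach : ∀ (P : V → Prop), (∀ x, P x → U x) → ∀ u w, ReflTransGen (St s t S P) u w →
      Γ.Reachable u w := by
    intro P hP u w huw
    induction huw with
    | refl => exact SimpleGraph.Reachable.refl _
    | tail hab0 h2 ih =>
      rename_i a b
      obtain ⟨h3, h4, h5⟩ := h2
      by_cases hab : b = a
      · rw [hab]; exact ih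
      · have : Γ.Adj a b := ⟨⟨hab, h3⟩, hP _ h4, hP _ h5⟩
        exact ih.trans this.reachable
  have hedge : ∀ i : ℕ, ∀ hi : i + 1 < K, ∃ a b, π a = q ⟨i, by omega⟩ ∧ π b = q ⟨i + 1, hi⟩ ∧
      Γ.Adj a b := by
    intro i hi
    have h1 := (hq' ⟨i, by omega⟩ ⟨i + 1, hi⟩ (by simp)).2 rfl
    obtain ⟨hne, e, he, hE⟩ := h1
    rcases hE with ⟨h4, h5⟩ | ⟨h4, h5⟩
    · refine ⟨s e, t e, h4, h5, ⟨?_, e, he, Or.inl ⟨rfl, rfl⟩⟩, ⟨_, h4⟩, ⟨_, h5⟩⟩
      intro h6
      exact hne (by rw [← h4, ← h5]; exact congrArg π h6)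
    · refine ⟨t e, s e, h5, h4, ⟨?_, e, he, Or.inr ⟨rfl, rfl⟩⟩, ⟨_, h5⟩, ⟨_, h4⟩⟩
      intro h6
      exact hne (by rw [← h4, ← h5]; exact congrArg π h6)
  have hall : ∀ i : ℕ, ∀ hi : i < K, ∀ u w, π u = q ⟨0, by omega⟩ → π w = q ⟨i, hi⟩ →
      Γ.Reachable u w := by
    intro i
    induction i with
    | zero =>
      intro hi u w hu hw
      exact hreach _ (fun x hx => ⟨_, hx.trans hu⟩) u w (hπ u w (hu.trans hw.symm))
    | succ i ih =>
      intro hi u w hu hw
      obtain ⟨a, b, ha, hb, hab⟩ := hedge i hi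
      refine ((ih (by omega) u a hu ha).trans hab.reachable).trans ?_
      exact hreach _ (fun x hx => ⟨_, hx.trans hb⟩) b w (hπ b w (hb.trans hw.symm))
  have hlayer : ∀ u w (p : Γ.Walk u w) (i j : Fin K), π u = q i → π w = q j →
      j.val ≤ i.val + p.length := by
    intro u w p
    induction p with
    | nil =>
      intro i j hi hj
      have : i = j := hq (hi.symm.trans hj)
      subst this
      simp
    | cons hadj p ih =>
      rename_i a b c
      intro i j hi hj
      obtain ⟨h1, h2, k, hk⟩ := hadj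
      have h3 := ih k j hk hj
      have h4 : k.val ≤ i.val + 1 := by
        rcases lt_trichotomy i k with h5 | h5 | h5
        · have h6 : Nb (fun e => π (s e)) (fun e => π (t e)) S (q i) (q k) := by
            obtain ⟨hne, e, he, hE⟩ := h1
            refine ⟨fun h => absurd (hq h) (ne_of_gt h5), e, he, ?_⟩
            rcases hE with ⟨h4, h5⟩ | ⟨h4, h5⟩
            · exact Or.inl ⟨by rw [← hi]; exact congrArg π h4, by rw [← hk]; exact congrArg π h5⟩
            · exact Or.inr ⟨by rw [← hk]; exact congrArg π h4, by rw [← hi]; exact congrArg π h5⟩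
          have := (hq' i k h5).1 h6
          omega
        · subst h5; omega
        · have : k.val < i.val := h5
          omega
      rw [SimpleGraph.Walk.length_cons]
      omega
  obtain ⟨x0, _, hx0, _, hadj0⟩ := hedge 0 (by omega)
  obtain ⟨_, x1, _, hx1, _⟩ := hedge (K - 2) (by omega)
  have hx1' : π x1 = q ⟨K - 1, by omega⟩ := by
    rw [hx1]
    congr 1
    apply Fin.ext
    show K - 2 + 1 = K - 1
    omega
  obtain ⟨w, hw⟩ := (hall (K - 1) (by omega) x0 x1 hx0 hx1').exists_walk_length_eq_dist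
  have hlen := hlayer x0 x1 w ⟨0, by omega⟩ ⟨K - 1, by omega⟩ hx0 hx1'
  have hlen' : K - 1 ≤ w.length := by simpa using hlen
  have hg := geo w hw
  have hUw : ∀ i, i ≤ w.length → U (w.getVert i) := by
    intro i hi
    rcases Nat.eq_zero_or_pos i with rfl | hpos
    · rw [SimpleGraph.Walk.getVert_zero]; exact ⟨_, hx0⟩
    · obtain ⟨j, rfl⟩ : ∃ j, i = j + 1 := ⟨i - 1, by omega⟩
      exact (w.adj_getVert_succ (i := j) (by omega)).2.2
  refine ⟨fun i => w.getVert i.val, ?_, ?_, fun i => hUw _ (by omega)⟩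
  · intro i j hij
    have h1 := hg i.val (by omega)
    have h2 := hg j.val (by omega)
    have h3 : w.getVert i.val = w.getVert j.val := hij
    rw [h3, h2] at h1
    exact Fin.ext h1.symm
  · intro i j hij
    have hi : i.val ≤ w.length := by omega
    have hj : j.val ≤ w.length := by omega
    have hij' : i.val < j.val := hij
    constructor
    · intro h1
      have h2 : Γ.Adj (w.getVert i.val) (w.getVert j.val) := ⟨h1, hUw _ hi, hUw _ hj⟩
      have h3 := SimpleGraph.dist_le ((w.take i.val).concat h2)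
      rw [SimpleGraph.Walk.length_concat, SimpleGraph.Walk.take_length, hg _ hj] at h3
      omega
    · intro h1
      have h2 := (w.adj_getVert_succ (i := i.val) (by omega)).1
      have h3 : w.getVert j.val = w.getVert (i.val + 1) := by rw [h1]
      show Nb s t S (w.getVert i.val) (w.getVert j.val)
      rw [h3]
      exact h2

/-- one path of a linear forest -/
theorem lift_list {s t : E → V} {S : Finset E} {π : V → V} (hπ : FC s t S π) (l : List V)
    (h1 : IndP (Nb (fun e => π (s e)) (fun e => π (t e)) S) l)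
    (h2 : ∀ x ∈ l, ∃ b, Nb (fun e => π (s e)) (fun e => π (t e)) S x b) :
    ∃ l' : List V, l'.length = l.length ∧ IndP (Nb s t S) l' ∧
      (∀ x ∈ l', ∃ b, Nb s t S x b) ∧ ∀ x ∈ l', π x ∈ l := by
  classical
  rcases Nat.lt_or_ge l.length 2 with h | h
  · rcases l with _ | ⟨x, _ | ⟨y, l⟩⟩
    · exact ⟨[], rfl, fun i j hi => absurd hi (by simp), by simp, by simp⟩
    · obtain ⟨b, hb, e, he, hE⟩ := h2 x (by simp)
      have : ∃ u w, Nb s t S u w ∧ π u = x := by
        rcases hE with ⟨h4, h5⟩ | ⟨h4, h5⟩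
        · refine ⟨s e, t e, ⟨fun h => hb ?_, e, he, Or.inl ⟨rfl, rfl⟩⟩, h4⟩
          rw [← h4, ← h5]
          exact congrArg π h
        · refine ⟨t e, s e, ⟨fun h => hb ?_, e, he, Or.inr ⟨rfl, rfl⟩⟩, h5⟩
          rw [← h4, ← h5]
          exact congrArg π h
      obtain ⟨u, w, huw, hu⟩ := this
      refine ⟨[u], rfl, ?_, ?_, ?_⟩
      · intro i j hi hj hij
        simp at hi hj
        omega
      · intro x hx
        rw [List.mem_singleton] at hx
        subst hx
        exact ⟨w, huw⟩
      · intro x' hx'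
        rw [List.mem_singleton] at hx'
        subst hx'
        rw [hu]
        simp
    · simp at h
  · obtain ⟨p, p1, p2, p3⟩ := lift_path' hπ h (fun i => l[i.val]) (by
      intro i j hij
      rcases lt_trichotomy i j with h3 | h3 | h3
      · exact absurd hij (h1 i.val j.val i.2 j.2 h3).1
      · exact h3
      · exact absurd hij.symm (h1 j.val i.val j.2 i.2 h3).1)
      (fun i j hij => (h1 i.val j.val i.2 j.2 hij).2)
    refine ⟨List.ofFn p, by simp, ?_, ?_, ?_⟩
    · intro i j hi hj hij
      rw [List.length_ofFn] at hi hj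
      rw [List.getElem_ofFn, List.getElem_ofFn]
      refine ⟨fun h => ?_, p2 ⟨i, hi⟩ ⟨j, hj⟩ hij⟩
      have := p1 h
      have h5 : i = j := congrArg Fin.val this
      omega
    · intro x hx
      rw [List.mem_ofFn] at hx
      obtain ⟨i, rfl⟩ := hx
      by_cases h7 : i.val + 1 < l.length
      · exact ⟨p ⟨i.val + 1, h7⟩, (p2 i ⟨i.val + 1, h7⟩ (by
          show i.val < i.val + 1
          omega)).2 rfl⟩
      · refine ⟨p ⟨i.val - 1, by omega⟩, nb_comm ((p2 ⟨i.val - 1, by omega⟩ i ?_).2 ?_)⟩
        · show i.val - 1 < i.val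
          have := i.2
          omega
        · show i.val - 1 + 1 = i.val
          have := i.2
          omega
    · intro x hx
      rw [List.mem_ofFn] at hx
      obtain ⟨i, rfl⟩ := hx
      obtain ⟨j, hj⟩ := p3 i
      rw [hj]
      exact List.getElem_mem _

/-- induced linear forests of a contraction can be lifted -/
theorem HasF.lift {s t : E → V} {S : Finset E} {π : V → V} (hπ : FC s t S π) {ks : List ℕ}
    (h : HasF (Nb (fun e => π (s e)) (fun e => π (t e)) S) ks) : HasF (Nb s t S) ks := by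
  classical
  obtain ⟨P, q1, q2, q3, q4⟩ := h
  have hex : ∀ l : List V, ∃ l' : List V, l ∈ P → (l'.length = l.length ∧ IndP (Nb s t S) l' ∧
      (∀ x ∈ l', ∃ b, Nb s t S x b) ∧ ∀ x ∈ l', π x ∈ l) := by
    intro l
    by_cases hl : l ∈ P
    · obtain ⟨l', h'⟩ := lift_list hπ l (q3 l hl) (q2 l hl)
      exact ⟨l', fun _ => h'⟩
    · exact ⟨[], fun h => absurd h hl⟩
  choose f hf using hex
  refine ⟨P.map f, ?_, ?_, ?_, ?_⟩
  · rw [← q1, List.map_map]
    exact List.map_congr_left (fun l hl => (hf l hl).1)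
  · intro l hl
    obtain ⟨l0, hl0, rfl⟩ := List.mem_map.1 hl
    exact (hf l0 hl0).2.2.1
  · intro l hl
    obtain ⟨l0, hl0, rfl⟩ := List.mem_map.1 hl
    exact (hf l0 hl0).2.1
  · rw [List.pairwise_map]
    refine List.Pairwise.imp_of_mem ?_ q4
    intro l l' hl hl' hll x hx y hy
    obtain ⟨a1, a2⟩ := hll (π x) ((hf l hl).2.2.2 x hx) (π y) ((hf l' hl').2.2.2 y hy)
    refine ⟨fun h => a1 (congrArg π h), fun h => a2 ?_⟩
    obtain ⟨_, e, he, hE⟩ := h
    refine ⟨fun h => a1 h.symm, e, he, ?_⟩
    rcases hE with ⟨h4, h5⟩ | ⟨h4, h5⟩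
    · exact Or.inl ⟨congrArg π h4, congrArg π h5⟩
    · exact Or.inr ⟨congrArg π h4, congrArg π h5⟩

end

end Pool.Agent.Run7.h878.LF
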