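import Pool.Agent.Run7.h878.LF.Step
import Pool.Agent.Run7.h878.LF.PA9_0
import Pool.Agent.Run7.h878.LF.PA9_1
import Pool.Agent.Run7.h878.LF.PA9_2
import Pool.Agent.Run7.h878.LF.PA9_3
import Pool.Agent.Run7.h878.LF.PA9_4
import Pool.Agent.Run7.h878.LF.PA9_5
import Pool.Agent.Run7.h878.LF.PA9_6

set_option autoImplicit false

/-!
# The stage A9 of the search
-/

namespace Pool.Agent.Run7.h878.LF

set_option linter.style.longLine false in
/-- the stage A9 -/
theorem sA9 {V : Type} {R : V → V → Prop}
    (hR : Hyp2 R [[false, true, true, true, true, true, true, true, true, false],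
    [false, true, true, true, true, true, true, true, true, true]]) :
    NE R 9 (pathM 9) := by
  have n0 := piece hR (fun q hq => absurd hq (List.not_mem_nil)) (by norm_num) cA9_0
  have n1 := piece hR (fun q hq => absurd hq (List.not_mem_nil)) (by norm_num) cA9_1
  have n2 := piece hR (fun q hq => absurd hq (List.not_mem_nil)) (by norm_num) cA9_2
  have n3 := piece hR (fun q hq => absurd hq (List.not_mem_nil)) (by norm_num) cA9_3
  have n4 := piece hR (fun q hq => absurd hq (List.not_mem_nil)) (by norm_num) cA9_4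
  have n5 := piece hR (fun q hq => absurd hq (List.not_mem_nil)) (by norm_num) cA9_5
  have n6 := piece hR (fun q hq => absurd hq (List.not_mem_nil)) (by norm_num) cA9_6
  have n7 := piece hR (fun q hq => absurd hq (List.not_mem_nil)) (by norm_num) cA9_7
  have n8 := piece hR (fun q hq => absurd hq (List.not_mem_nil)) (by norm_num) cA9_8
  have n9 := piece hR (fun q hq => absurd hq (List.not_mem_nil)) (by norm_num) cA9_9
  have n10 := piece hR (fun q hq => absurd hq (List.not_mem_nil)) (by norm_num) cA9_10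
  have n11 := piece hR (fun q hq => absurd hq (List.not_mem_nil)) (by norm_num) cA9_11
  have n12 := piece hR (List.forall_mem_cons.2 ⟨n9, (fun q hq => absurd hq (List.not_mem_nil))⟩) (by norm_num) cA9_12
  have n13 := piece hR (List.forall_mem_cons.2 ⟨n11, (List.forall_mem_cons.2 ⟨n10, (fun q hq => absurd hq (List.not_mem_nil))⟩)⟩) (by norm_num) cA9_13
  have n14 := piece hR (fun q hq => absurd hq (List.not_mem_nil)) (by norm_num) cA9_14
  have n15 := piece hR (fun q hq => absurd hq (List.not_mem_nil)) (by norm_num) cA9_15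
  have n16 := piece hR (fun q hq => absurd hq (List.not_mem_nil)) (by norm_num) cA9_16
  have n17 := piece hR (fun q hq => absurd hq (List.not_mem_nil)) (by norm_num) cA9_17
  have n18 := piece hR (fun q hq => absurd hq (List.not_mem_nil)) (by norm_num) cA9_18
  have n19 := piece hR (fun q hq => absurd hq (List.not_mem_nil)) (by norm_num) cA9_19
  have n20 := piece hR (fun q hq => absurd hq (List.not_mem_nil)) (by norm_num) cA9_20
  have n21 := piece hR (List.forall_mem_cons.2 ⟨n19, (fun q hq => absurd hq (List.not_mem_nil))⟩) (by norm_num) cA9_21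
  have n22 := piece hR (fun q hq => absurd hq (List.not_mem_nil)) (by norm_num) cA9_22
  have n23 := piece hR (List.forall_mem_cons.2 ⟨n22, (fun q hq => absurd hq (List.not_mem_nil))⟩) (by norm_num) cA9_23
  have n24 := piece hR (fun q hq => absurd hq (List.not_mem_nil)) (by norm_num) cA9_24
  have n25 := piece hR (List.forall_mem_cons.2 ⟨n24, (List.forall_mem_cons.2 ⟨n23, (fun q hq => absurd hq (List.not_mem_nil))⟩)⟩) (by norm_num) cA9_25
  have n26 := piece hR (List.forall_mem_cons.2 ⟨n20, (List.forall_mem_cons.2 ⟨n21, (fun q hq => absurd hq (List.not_mem_nil))⟩)⟩) (by norm_num) cA9_26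
  have n27 := piece hR (List.forall_mem_cons.2 ⟨n18, (List.forall_mem_cons.2 ⟨n26, (List.forall_mem_cons.2 ⟨n25, (fun q hq => absurd hq (List.not_mem_nil))⟩)⟩)⟩) (by norm_num) cA9_27
  have n28 := piece hR (fun q hq => absurd hq (List.not_mem_nil)) (by norm_num) cA9_28
  have n29 := piece hR (List.forall_mem_cons.2 ⟨n15, (List.forall_mem_cons.2 ⟨n16, (fun q hq => absurd hq (List.not_mem_nil))⟩)⟩) (by norm_num) cA9_29
  have n30 := piece hR (fun q hq => absurd hq (List.not_mem_nil)) (by norm_num) cA9_30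
  have n31 := piece hR (fun q hq => absurd hq (List.not_mem_nil)) (by norm_num) cA9_31
  have n32 := piece hR (List.forall_mem_cons.2 ⟨n31, (List.forall_mem_cons.2 ⟨n30, (fun q hq => absurd hq (List.not_mem_nil))⟩)⟩) (by norm_num) cA9_32
  have n33 := piece hR (fun q hq => absurd hq (List.not_mem_nil)) (by norm_num) cA9_33
  have n34 := piece hR (fun q hq => absurd hq (List.not_mem_nil)) (by norm_num) cA9_34
  have n35 := piece hR (List.forall_mem_cons.2 ⟨n33, (fun q hq => absurd hq (List.not_mem_nil))⟩) (by norm_num) cA9_35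
  have n36 := piece hR (List.forall_mem_cons.2 ⟨n34, (fun q hq => absurd hq (List.not_mem_nil))⟩) (by norm_num) cA9_36
  have n37 := piece hR (fun q hq => absurd hq (List.not_mem_nil)) (by norm_num) cA9_37
  have n38 := piece hR (fun q hq => absurd hq (List.not_mem_nil)) (by norm_num) cA9_38
  have n39 := piece hR (List.forall_mem_cons.2 ⟨n32, (fun q hq => absurd hq (List.not_mem_nil))⟩) (by norm_num) cA9_39
  have n40 := piece hR (List.forall_mem_cons.2 ⟨n35, (List.forall_mem_cons.2 ⟨n37, (List.forall_mem_cons.2 ⟨n36, (fun q hq => absurd hq (List.not_mem_nil))⟩)⟩)⟩) (by norm_num) cA9_40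
  have n41 := piece hR (fun q hq => absurd hq (List.not_mem_nil)) (by norm_num) cA9_41
  have n42 := piece hR (fun q hq => absurd hq (List.not_mem_nil)) (by norm_num) cA9_42
  have n43 := piece hR (List.forall_mem_cons.2 ⟨n42, (fun q hq => absurd hq (List.not_mem_nil))⟩) (by norm_num) cA9_43
  have n44 := piece hR (fun q hq => absurd hq (List.not_mem_nil)) (by norm_num) cA9_44
  have n45 := piece hR (List.forall_mem_cons.2 ⟨n41, (fun q hq => absurd hq (List.not_mem_nil))⟩) (by norm_num) cA9_45
  have n46 := piece hR (fun q hq => absurd hq (List.not_mem_nil)) (by norm_num) cA9_46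
  have n47 := piece hR (fun q hq => absurd hq (List.not_mem_nil)) (by norm_num) cA9_47
  have n48 := piece hR (fun q hq => absurd hq (List.not_mem_nil)) (by norm_num) cA9_48
  have n49 := piece hR (fun q hq => absurd hq (List.not_mem_nil)) (by norm_num) cA9_49
  have n50 := piece hR (fun q hq => absurd hq (List.not_mem_nil)) (by norm_num) cA9_50
  have n51 := piece hR (List.forall_mem_cons.2 ⟨n50, (fun q hq => absurd hq (List.not_mem_nil))⟩) (by norm_num) cA9_51
  have n52 := piece hR (fun q hq => absurd hq (List.not_mem_nil)) (by norm_num) cA9_52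
  have n53 := piece hR (fun q hq => absurd hq (List.not_mem_nil)) (by norm_num) cA9_53
  have n54 := piece hR (fun q hq => absurd hq (List.not_mem_nil)) (by norm_num) cA9_54
  have n55 := piece hR (fun q hq => absurd hq (List.not_mem_nil)) (by norm_num) cA9_55
  have n56 := piece hR (fun q hq => absurd hq (List.not_mem_nil)) (by norm_num) cA9_56
  have n57 := piece hR (List.forall_mem_cons.2 ⟨n56, (fun q hq => absurd hq (List.not_mem_nil))⟩) (by norm_num) cA9_57
  have n58 := piece hR (fun q hq => absurd hq (List.not_mem_nil)) (by norm_num) cA9_58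
  have n59 := piece hR (List.forall_mem_cons.2 ⟨n57, (fun q hq => absurd hq (List.not_mem_nil))⟩) (by norm_num) cA9_59
  have n60 := piece hR (List.forall_mem_cons.2 ⟨n47, (List.forall_mem_cons.2 ⟨n48, (fun q hq => absurd hq (List.not_mem_nil))⟩)⟩) (by norm_num) cA9_60
  have n61 := piece hR (List.forall_mem_cons.2 ⟨n53, (List.forall_mem_cons.2 ⟨n52, (fun q hq => absurd hq (List.not_mem_nil))⟩)⟩) (by norm_num) cA9_61
  have n62 := piece hR (List.forall_mem_cons.2 ⟨n49, (fun q hq => absurd hq (List.not_mem_nil))⟩) (by norm_num) cA9_62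
  have n63 := piece hR (List.forall_mem_cons.2 ⟨n55, (List.forall_mem_cons.2 ⟨n58, (List.forall_mem_cons.2 ⟨n59, (fun q hq => absurd hq (List.not_mem_nil))⟩)⟩)⟩) (by norm_num) cA9_63
  have n64 := piece hR (List.forall_mem_cons.2 ⟨n28, (List.forall_mem_cons.2 ⟨n14, (List.forall_mem_cons.2 ⟨n29, (List.forall_mem_cons.2 ⟨n17, (List.forall_mem_cons.2 ⟨n27, (fun q hq => absurd hq (List.not_mem_nil))⟩)⟩)⟩)⟩)⟩) (by norm_num) cA9_64
  have n65 := piece hR (List.forall_mem_cons.2 ⟨n60, (List.forall_mem_cons.2 ⟨n62, (List.forall_mem_cons.2 ⟨n51, (List.forall_mem_cons.2 ⟨n61, (List.forall_mem_cons.2 ⟨n54, (List.forall_mem_cons.2 ⟨n63, (fun q hq => absurd hq (List.not_mem_nil))⟩)⟩)⟩)⟩)⟩)⟩) (by norm_num) cA9_65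
  have n66 := piece hR (List.forall_mem_cons.2 ⟨n4, (List.forall_mem_cons.2 ⟨n7, (List.forall_mem_cons.2 ⟨n0, (List.forall_mem_cons.2 ⟨n5, (List.forall_mem_cons.2 ⟨n1, (List.forall_mem_cons.2 ⟨n2, (List.forall_mem_cons.2 ⟨n8, (List.forall_mem_cons.2 ⟨n3, (List.forall_mem_cons.2 ⟨n6, (fun q hq => absurd hq (List.not_mem_nil))⟩)⟩)⟩)⟩)⟩)⟩)⟩)⟩)⟩) (by norm_num) cA9_66
  have n67 := piece hR (List.forall_mem_cons.2 ⟨n45, (List.forall_mem_cons.2 ⟨n43, (List.forall_mem_cons.2 ⟨n46, (List.forall_mem_cons.2 ⟨n44, (fun q hq => absurd hq (List.not_mem_nil))⟩)⟩)⟩)⟩) (by norm_num) cA9_67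
  have n68 := piece hR (List.forall_mem_cons.2 ⟨n12, (List.forall_mem_cons.2 ⟨n13, (fun q hq => absurd hq (List.not_mem_nil))⟩)⟩) (by norm_num) cA9_68
  have n69 := piece hR (List.forall_mem_cons.2 ⟨n66, (List.forall_mem_cons.2 ⟨n68, (List.forall_mem_cons.2 ⟨n64, (List.forall_mem_cons.2 ⟨n39, (List.forall_mem_cons.2 ⟨n38, (List.forall_mem_cons.2 ⟨n40, (List.forall_mem_cons.2 ⟨n67, (List.forall_mem_cons.2 ⟨n65, (fun q hq => absurd hq (List.not_mem_nil))⟩)⟩)⟩)⟩)⟩)⟩)⟩)⟩) (by norm_num) cA9_69
  have e : pathM 9 = 14821387431003655948709627093184286086278649688613821927246238198142656176979970 := by decide +kernel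
  rw [e]
  exact n69

end Pool.Agent.Run7.h878.LF
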