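import Pool.Agent.Run7.h878.LF.Step
import Pool.Agent.Run7.h878.LF.PB2a_0
import Pool.Agent.Run7.h878.LF.PB2a_1
import Pool.Agent.Run7.h878.LF.PB2a_2

set_option autoImplicit false

/-!
# The stage B2a of the search
-/

namespace Pool.Agent.Run7.h878.LF

set_option linter.style.longLine false in
/-- the stage B2a -/
theorem sB2a {V : Type} {R : V → V → Prop}
    (hR : Hyp2 R [[false, true, true, true, false, true, false, true, false],
    [false, true, true, true, true, true, true, true, true, true]]) :
    NE R 9 (pathM 9) := by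
  have n0 := piece hR (fun q hq => absurd hq (List.not_mem_nil)) (by norm_num) cB2a_0
  have n1 := piece hR (fun q hq => absurd hq (List.not_mem_nil)) (by norm_num) cB2a_1
  have n2 := piece hR (fun q hq => absurd hq (List.not_mem_nil)) (by norm_num) cB2a_2
  have n3 := piece hR (fun q hq => absurd hq (List.not_mem_nil)) (by norm_num) cB2a_3
  have n4 := piece hR (fun q hq => absurd hq (List.not_mem_nil)) (by norm_num) cB2a_4
  have n5 := piece hR (fun q hq => absurd hq (List.not_mem_nil)) (by norm_num) cB2a_5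
  have n6 := piece hR (List.forall_mem_cons.2 ⟨n4, (fun q hq => absurd hq (List.not_mem_nil))⟩) (by norm_num) cB2a_6
  have n7 := piece hR (fun q hq => absurd hq (List.not_mem_nil)) (by norm_num) cB2a_7
  have n8 := piece hR (fun q hq => absurd hq (List.not_mem_nil)) (by norm_num) cB2a_8
  have n9 := piece hR (fun q hq => absurd hq (List.not_mem_nil)) (by norm_num) cB2a_9
  have n10 := piece hR (List.forall_mem_cons.2 ⟨n9, (fun q hq => absurd hq (List.not_mem_nil))⟩) (by norm_num) cB2a_10
  have n11 := piece hR (fun q hq => absurd hq (List.not_mem_nil)) (by norm_num) cB2a_11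
  have n12 := piece hR (fun q hq => absurd hq (List.not_mem_nil)) (by norm_num) cB2a_12
  have n13 := piece hR (fun q hq => absurd hq (List.not_mem_nil)) (by norm_num) cB2a_13
  have n14 := piece hR (fun q hq => absurd hq (List.not_mem_nil)) (by norm_num) cB2a_14
  have n15 := piece hR (fun q hq => absurd hq (List.not_mem_nil)) (by norm_num) cB2a_15
  have n16 := piece hR (fun q hq => absurd hq (List.not_mem_nil)) (by norm_num) cB2a_16
  have n17 := piece hR (List.forall_mem_cons.2 ⟨n14, (fun q hq => absurd hq (List.not_mem_nil))⟩) (by norm_num) cB2a_17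
  have n18 := piece hR (List.forall_mem_cons.2 ⟨n16, (fun q hq => absurd hq (List.not_mem_nil))⟩) (by norm_num) cB2a_18
  have n19 := piece hR (List.forall_mem_cons.2 ⟨n15, (fun q hq => absurd hq (List.not_mem_nil))⟩) (by norm_num) cB2a_19
  have n20 := piece hR (List.forall_mem_cons.2 ⟨n10, (fun q hq => absurd hq (List.not_mem_nil))⟩) (by norm_num) cB2a_20
  have n21 := piece hR (List.forall_mem_cons.2 ⟨n0, (List.forall_mem_cons.2 ⟨n1, (fun q hq => absurd hq (List.not_mem_nil))⟩)⟩) (by norm_num) cB2a_21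
  have n22 := piece hR (List.forall_mem_cons.2 ⟨n17, (List.forall_mem_cons.2 ⟨n19, (List.forall_mem_cons.2 ⟨n18, (fun q hq => absurd hq (List.not_mem_nil))⟩)⟩)⟩) (by norm_num) cB2a_22
  have n23 := piece hR (List.forall_mem_cons.2 ⟨n7, (List.forall_mem_cons.2 ⟨n8, (List.forall_mem_cons.2 ⟨n6, (List.forall_mem_cons.2 ⟨n5, (fun q hq => absurd hq (List.not_mem_nil))⟩)⟩)⟩)⟩) (by norm_num) cB2a_23
  have n24 := piece hR (List.forall_mem_cons.2 ⟨n2, (List.forall_mem_cons.2 ⟨n3, (fun q hq => absurd hq (List.not_mem_nil))⟩)⟩) (by norm_num) cB2a_24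
  have n25 := piece hR (List.forall_mem_cons.2 ⟨n21, (List.forall_mem_cons.2 ⟨n24, (List.forall_mem_cons.2 ⟨n23, (List.forall_mem_cons.2 ⟨n20, (List.forall_mem_cons.2 ⟨n13, (List.forall_mem_cons.2 ⟨n11, (List.forall_mem_cons.2 ⟨n12, (List.forall_mem_cons.2 ⟨n22, (fun q hq => absurd hq (List.not_mem_nil))⟩)⟩)⟩)⟩)⟩)⟩)⟩)⟩) (by norm_num) cB2a_25
  have e : pathM 9 = 14821387431003655948709627093184286086278649688613821927246238198142656176979970 := by decide +kernel
  rw [e]
  exact n25

end Pool.Agent.Run7.h878.LF
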