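import Pool.Agent.Run7.h878.LF.Step
import Pool.Agent.Run7.h878.LF.PB2b_0

set_option autoImplicit false

/-!
# The stage B2b of the search
-/

namespace Pool.Agent.Run7.h878.LF

set_option linter.style.longLine false in
/-- the stage B2b -/
theorem sB2b {V : Type} {R : V → V → Prop}
    (hR : Hyp2 R [[false, true, true, true, false, true, false, true, false],
    [false, true, true, true, true, true, true, true, true, true, true]]) :
    NE R 10 (pathM 10) := by
  have n0 := piece hR (fun q hq => absurd hq (List.not_mem_nil)) (by norm_num) cB2b_0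
  have n1 := piece hR (fun q hq => absurd hq (List.not_mem_nil)) (by norm_num) cB2b_1
  have n2 := piece hR (fun q hq => absurd hq (List.not_mem_nil)) (by norm_num) cB2b_2
  have n3 := piece hR (fun q hq => absurd hq (List.not_mem_nil)) (by norm_num) cB2b_3
  have n4 := piece hR (fun q hq => absurd hq (List.not_mem_nil)) (by norm_num) cB2b_4
  have n5 := piece hR (fun q hq => absurd hq (List.not_mem_nil)) (by norm_num) cB2b_5
  have n6 := piece hR (List.forall_mem_cons.2 ⟨n5, (List.forall_mem_cons.2 ⟨n4, (fun q hq => absurd hq (List.not_mem_nil))⟩)⟩) (by norm_num) cB2b_6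
  have n7 := piece hR (fun q hq => absurd hq (List.not_mem_nil)) (by norm_num) cB2b_7
  have n8 := piece hR (List.forall_mem_cons.2 ⟨n3, (List.forall_mem_cons.2 ⟨n1, (List.forall_mem_cons.2 ⟨n2, (fun q hq => absurd hq (List.not_mem_nil))⟩)⟩)⟩) (by norm_num) cB2b_8
  have n9 := piece hR (fun q hq => absurd hq (List.not_mem_nil)) (by norm_num) cB2b_9
  have n10 := piece hR (List.forall_mem_cons.2 ⟨n9, (List.forall_mem_cons.2 ⟨n0, (List.forall_mem_cons.2 ⟨n7, (List.forall_mem_cons.2 ⟨n8, (List.forall_mem_cons.2 ⟨n6, (fun q hq => absurd hq (List.not_mem_nil))⟩)⟩)⟩)⟩)⟩) (by norm_num) cB2b_10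
  have e : pathM 10 = 127314748595012317512287403531164106483349269511273897502180568800097352445402722689089538 := by decide +kernel
  rw [e]
  exact n10

end Pool.Agent.Run7.h878.LF
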