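import Pool.Agent.Run7.h878.LF.Check

set_option autoImplicit false
set_option maxRecDepth 100000

/-!
# Pieces of the stage B2c of the search
-/

namespace Pool.Agent.Run7.h878.LF

/-- a part of the certificate -/
def dB2c_0p0 : List Nat := [
  5, 180442923303424, 76024785699328, 180442923303424, 198599827867696, 128800236536320,
  76024785699328, 180442923303424, 180440708761648, 180442923303424, 198599827867696,
  195765151075936, 11, 180446693982720, 59000086003728, 59000086004224, 76024786223616,
  128804007215616, 216762270401552, 5653827505264, 76024786223616, 180446693982720,
  59000086003728, 59000086004224, 180440709285936, 198032895330352, 3, 233222665492480,
  233785307256832, 59000086020608, 233222665492480, 165602700384256, 233785307256832,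
  232651437545472, 232651437545472, 232651437545472, 233222665492480, 57301865764944,
  59000086020608, 233222665492480, 233222665492480, 233785307256832, 165602700384256,
  233785307256832, 15, 233786966573568, 216198456460336, 5659276412448, 233784199956528,
  165599516328448, 216197482207744, 233786966573568, 216197481699840, 5653828062288,
  233786966573568, 216198456460336, 165599516328448, 216197482207744, 233786966573568,
  216197481699840, 233786966573568, 165599516328448, 198599827867696]

set_option linter.style.longLine false in
/-- the piece 0 of the stage B2c -/
theorem cB2c_0 : (check2 [[false, true, true, true, false, true, false, true, false]]
    []
    25 11 1093625363028079704864884952638209508310093362192822586140643263366192180738380638997993487746465794 (dB2c_0p0)).isSome = true := by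
  decide +kernel

end Pool.Agent.Run7.h878.LF
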