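import Pool.Agent.Run7.h878.LF.Step
import Pool.Agent.Run7.h878.LF.PB3a_0
import Pool.Agent.Run7.h878.LF.PB3a_1
import Pool.Agent.Run7.h878.LF.PB3a_2
import Pool.Agent.Run7.h878.LF.PB3a_3
import Pool.Agent.Run7.h878.LF.PB3a_4

set_option autoImplicit false

/-!
# The stage B3a of the search
-/

namespace Pool.Agent.Run7.h878.LF

set_option linter.style.longLine false in
/-- the stage B3a -/
theorem sB3a {V : Type} {R : V → V → Prop}
    (hR : Hyp2 R [[false, true, true, true, false, false, false, false],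
    [false, true, true, true, true, true, true, true, true, true]]) :
    NE R 9 (pathM 9) := by
  have n0 := piece hR (fun q hq => absurd hq (List.not_mem_nil)) (by norm_num) cB3a_0
  have n1 := piece hR (fun q hq => absurd hq (List.not_mem_nil)) (by norm_num) cB3a_1
  have n2 := piece hR (fun q hq => absurd hq (List.not_mem_nil)) (by norm_num) cB3a_2
  have n3 := piece hR (fun q hq => absurd hq (List.not_mem_nil)) (by norm_num) cB3a_3
  have n4 := piece hR (fun q hq => absurd hq (List.not_mem_nil)) (by norm_num) cB3a_4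
  have n5 := piece hR (fun q hq => absurd hq (List.not_mem_nil)) (by norm_num) cB3a_5
  have n6 := piece hR (fun q hq => absurd hq (List.not_mem_nil)) (by norm_num) cB3a_6
  have n7 := piece hR (List.forall_mem_cons.2 ⟨n3, (fun q hq => absurd hq (List.not_mem_nil))⟩) (by norm_num) cB3a_7
  have n8 := piece hR (fun q hq => absurd hq (List.not_mem_nil)) (by norm_num) cB3a_8
  have n9 := piece hR (fun q hq => absurd hq (List.not_mem_nil)) (by norm_num) cB3a_9
  have n10 := piece hR (fun q hq => absurd hq (List.not_mem_nil)) (by norm_num) cB3a_10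
  have n11 := piece hR (fun q hq => absurd hq (List.not_mem_nil)) (by norm_num) cB3a_11
  have n12 := piece hR (fun q hq => absurd hq (List.not_mem_nil)) (by norm_num) cB3a_12
  have n13 := piece hR (List.forall_mem_cons.2 ⟨n11, (fun q hq => absurd hq (List.not_mem_nil))⟩) (by norm_num) cB3a_13
  have n14 := piece hR (List.forall_mem_cons.2 ⟨n10, (fun q hq => absurd hq (List.not_mem_nil))⟩) (by norm_num) cB3a_14
  have n15 := piece hR (fun q hq => absurd hq (List.not_mem_nil)) (by norm_num) cB3a_15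
  have n16 := piece hR (List.forall_mem_cons.2 ⟨n8, (fun q hq => absurd hq (List.not_mem_nil))⟩) (by norm_num) cB3a_16
  have n17 := piece hR (fun q hq => absurd hq (List.not_mem_nil)) (by norm_num) cB3a_17
  have n18 := piece hR (List.forall_mem_cons.2 ⟨n15, (fun q hq => absurd hq (List.not_mem_nil))⟩) (by norm_num) cB3a_18
  have n19 := piece hR (List.forall_mem_cons.2 ⟨n12, (List.forall_mem_cons.2 ⟨n14, (List.forall_mem_cons.2 ⟨n13, (fun q hq => absurd hq (List.not_mem_nil))⟩)⟩)⟩) (by norm_num) cB3a_19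
  have n20 := piece hR (List.forall_mem_cons.2 ⟨n9, (fun q hq => absurd hq (List.not_mem_nil))⟩) (by norm_num) cB3a_20
  have n21 := piece hR (fun q hq => absurd hq (List.not_mem_nil)) (by norm_num) cB3a_21
  have n22 := piece hR (fun q hq => absurd hq (List.not_mem_nil)) (by norm_num) cB3a_22
  have n23 := piece hR (fun q hq => absurd hq (List.not_mem_nil)) (by norm_num) cB3a_23
  have n24 := piece hR (fun q hq => absurd hq (List.not_mem_nil)) (by norm_num) cB3a_24
  have n25 := piece hR (fun q hq => absurd hq (List.not_mem_nil)) (by norm_num) cB3a_25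
  have n26 := piece hR (fun q hq => absurd hq (List.not_mem_nil)) (by norm_num) cB3a_26
  have n27 := piece hR (List.forall_mem_cons.2 ⟨n25, (List.forall_mem_cons.2 ⟨n24, (fun q hq => absurd hq (List.not_mem_nil))⟩)⟩) (by norm_num) cB3a_27
  have n28 := piece hR (List.forall_mem_cons.2 ⟨n26, (List.forall_mem_cons.2 ⟨n27, (fun q hq => absurd hq (List.not_mem_nil))⟩)⟩) (by norm_num) cB3a_28
  have n29 := piece hR (List.forall_mem_cons.2 ⟨n23, (List.forall_mem_cons.2 ⟨n22, (fun q hq => absurd hq (List.not_mem_nil))⟩)⟩) (by norm_num) cB3a_29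
  have n30 := piece hR (fun q hq => absurd hq (List.not_mem_nil)) (by norm_num) cB3a_30
  have n31 := piece hR (fun q hq => absurd hq (List.not_mem_nil)) (by norm_num) cB3a_31
  have n32 := piece hR (fun q hq => absurd hq (List.not_mem_nil)) (by norm_num) cB3a_32
  have n33 := piece hR (fun q hq => absurd hq (List.not_mem_nil)) (by norm_num) cB3a_33
  have n34 := piece hR (List.forall_mem_cons.2 ⟨n31, (fun q hq => absurd hq (List.not_mem_nil))⟩) (by norm_num) cB3a_34
  have n35 := piece hR (fun q hq => absurd hq (List.not_mem_nil)) (by norm_num) cB3a_35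
  have n36 := piece hR (fun q hq => absurd hq (List.not_mem_nil)) (by norm_num) cB3a_36
  have n37 := piece hR (fun q hq => absurd hq (List.not_mem_nil)) (by norm_num) cB3a_37
  have n38 := piece hR (fun q hq => absurd hq (List.not_mem_nil)) (by norm_num) cB3a_38
  have n39 := piece hR (fun q hq => absurd hq (List.not_mem_nil)) (by norm_num) cB3a_39
  have n40 := piece hR (List.forall_mem_cons.2 ⟨n38, (fun q hq => absurd hq (List.not_mem_nil))⟩) (by norm_num) cB3a_40
  have n41 := piece hR (fun q hq => absurd hq (List.not_mem_nil)) (by norm_num) cB3a_41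
  have n42 := piece hR (fun q hq => absurd hq (List.not_mem_nil)) (by norm_num) cB3a_42
  have n43 := piece hR (List.forall_mem_cons.2 ⟨n42, (fun q hq => absurd hq (List.not_mem_nil))⟩) (by norm_num) cB3a_43
  have n44 := piece hR (List.forall_mem_cons.2 ⟨n41, (fun q hq => absurd hq (List.not_mem_nil))⟩) (by norm_num) cB3a_44
  have n45 := piece hR (fun q hq => absurd hq (List.not_mem_nil)) (by norm_num) cB3a_45
  have n46 := piece hR (List.forall_mem_cons.2 ⟨n39, (List.forall_mem_cons.2 ⟨n40, (fun q hq => absurd hq (List.not_mem_nil))⟩)⟩) (by norm_num) cB3a_46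
  have n47 := piece hR (List.forall_mem_cons.2 ⟨n37, (List.forall_mem_cons.2 ⟨n36, (fun q hq => absurd hq (List.not_mem_nil))⟩)⟩) (by norm_num) cB3a_47
  have n48 := piece hR (List.forall_mem_cons.2 ⟨n21, (List.forall_mem_cons.2 ⟨n29, (List.forall_mem_cons.2 ⟨n30, (List.forall_mem_cons.2 ⟨n28, (fun q hq => absurd hq (List.not_mem_nil))⟩)⟩)⟩)⟩) (by norm_num) cB3a_48
  have n49 := piece hR (List.forall_mem_cons.2 ⟨n45, (List.forall_mem_cons.2 ⟨n47, (List.forall_mem_cons.2 ⟨n46, (List.forall_mem_cons.2 ⟨n44, (List.forall_mem_cons.2 ⟨n43, (fun q hq => absurd hq (List.not_mem_nil))⟩)⟩)⟩)⟩)⟩) (by norm_num) cB3a_49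
  have n50 := piece hR (List.forall_mem_cons.2 ⟨n16, (List.forall_mem_cons.2 ⟨n20, (List.forall_mem_cons.2 ⟨n19, (List.forall_mem_cons.2 ⟨n17, (List.forall_mem_cons.2 ⟨n18, (fun q hq => absurd hq (List.not_mem_nil))⟩)⟩)⟩)⟩)⟩) (by norm_num) cB3a_50
  have n51 := piece hR (List.forall_mem_cons.2 ⟨n34, (List.forall_mem_cons.2 ⟨n35, (List.forall_mem_cons.2 ⟨n32, (List.forall_mem_cons.2 ⟨n33, (fun q hq => absurd hq (List.not_mem_nil))⟩)⟩)⟩)⟩) (by norm_num) cB3a_51
  have n52 := piece hR (List.forall_mem_cons.2 ⟨n7, (List.forall_mem_cons.2 ⟨n4, (List.forall_mem_cons.2 ⟨n6, (List.forall_mem_cons.2 ⟨n5, (fun q hq => absurd hq (List.not_mem_nil))⟩)⟩)⟩)⟩) (by norm_num) cB3a_52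
  have n53 := piece hR (List.forall_mem_cons.2 ⟨n2, (List.forall_mem_cons.2 ⟨n0, (List.forall_mem_cons.2 ⟨n1, (List.forall_mem_cons.2 ⟨n52, (List.forall_mem_cons.2 ⟨n50, (List.forall_mem_cons.2 ⟨n48, (List.forall_mem_cons.2 ⟨n51, (List.forall_mem_cons.2 ⟨n49, (fun q hq => absurd hq (List.not_mem_nil))⟩)⟩)⟩)⟩)⟩)⟩)⟩)⟩) (by norm_num) cB3a_53
  have e : pathM 9 = 14821387431003655948709627093184286086278649688613821927246238198142656176979970 := by decide +kernel
  rw [e]
  exact n53

end Pool.Agent.Run7.h878.LF
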