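import Pool.Agent.Run7.h878.LF.Step
import Pool.Agent.Run7.h878.LF.PB3c_0

set_option autoImplicit false

/-!
# The stage B3c of the search
-/

namespace Pool.Agent.Run7.h878.LF

set_option linter.style.longLine false in
/-- the stage B3c -/
theorem sB3c {V : Type} {R : V → V → Prop}
    (hR : Hyp2 R [[false, true, true, true, false, false, false, false]]) :
    NE R 11 (pathM 11) := by
  have n0 := piece hR (fun q hq => absurd hq (List.not_mem_nil)) (by norm_num) cB3c_0
  have e : pathM 11 = 1093625363028079704864884952638209508310093362192822586140643263366192180738380638997993487746465794 := by decide +kernel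
  rw [e]
  exact n0

end Pool.Agent.Run7.h878.LF
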