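import Pool.Agent.Run7.h878.LF.Check

set_option autoImplicit false
set_option maxRecDepth 100000

/-!
# Pieces of the stage B4c of the search
-/

namespace Pool.Agent.Run7.h878.LF

/-- a part of the certificate -/
def dB4c_0p0 : List Nat := [
  3, 5638287180288, 5636711170560, 5638287180288, 5585206166016, 5638287180288, 5636711170560,
  3935973327360, 3935973327360, 6202053428768, 5638287180288, 5636711170560, 5638287180288,
  5585206166016, 6202053428768, 6201984273488, 6202053428768, 6133264830576, 6150548424224, 5,
  6736222798336, 6701914964480, 6684735095296, 6736222798336, 6753402667520, 19, 7322468385280,
  5638287212560, 5638287213056, 7285978612224, 7322468385280, 6771136741392, 5638438552064,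
  5636711202832, 7320892375552, 5638287212560, 5638287213056, 7322468385280, 6772695449616,
  6772695450112, 5583595586608, 7322468385280, 1, 5638287228944, 5636711219216, 5638287228944,
  5638287228944, 6754978725904, 5069876199440, 6754978725904, 6754978725904, 5638287228944, 31,
  5638287245328, 5638287245824, 8385490240000, 8404800143872, 5638472106496, 5636711235600,
  8403224134144, 5638287245328, 5638287245824, 8404800143872, 6755515613696, 8402770772480,
  8422516883968, 5638287245328, 8385490240000, 8422516883968, 8404800143872, 6754978742288,
  6754978742784, 8404800143872, 8369453171200, 5069876215824, 8421980013056, 5638287245824,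
  8385490240000, 5638472106496, 8420404003328, 5638287245824, 8404800143872, 8385490240000,
  8404800143872, 8403224134144, 8404800143872, 8402770772480, 8404800143872, 8404800143872,
  8404800143872, 8404800143872, 8404800143872, 8404800143872, 8404800143872, 8404800143872,
  8404800143872, 5638472106496, 8404800143872, 8422516883968, 8422516883968, 6736222798336,
  4501315716144, 5583595570224, 6736222798336, 6701914964480, 6684735095296]

set_option linter.style.longLine false in
/-- the piece 0 of the stage B4c -/
theorem cB4c_0 : (check2 [[false, true, true, false, true, false, false, false]]
    []
    25 11 1093625363028079704864884952638209508310093362192822586140643263366192180738380638997993487746465794 (dB4c_0p0)).isSome = true := by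
  decide +kernel

end Pool.Agent.Run7.h878.LF
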