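import Pool.Agent.Run7.h878.LF.Step
import Pool.Agent.Run7.h878.LF.PP9_0
import Pool.Agent.Run7.h878.LF.PP9_1
import Pool.Agent.Run7.h878.LF.PP9_2
import Pool.Agent.Run7.h878.LF.PP9_3
import Pool.Agent.Run7.h878.LF.PP9_4
import Pool.Agent.Run7.h878.LF.PP9_5
import Pool.Agent.Run7.h878.LF.PP9_6

set_option autoImplicit false

/-!
# The stage P9 of the search
-/

namespace Pool.Agent.Run7.h878.LF

set_option linter.style.longLine false in
/-- the stage P9 -/
theorem sP9 {V : Type} {R : V → V → Prop}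
    (hR : Hyp2 R [[false, true, true, true, true, true, true, true, true]]) :
    NE R 8 (pathM 8) := by
  have n0 := piece hR (fun q hq => absurd hq (List.not_mem_nil)) (by norm_num) cP9_0
  have n1 := piece hR (fun q hq => absurd hq (List.not_mem_nil)) (by norm_num) cP9_1
  have n2 := piece hR (List.forall_mem_cons.2 ⟨n0, (List.forall_mem_cons.2 ⟨n1, (fun q hq => absurd hq (List.not_mem_nil))⟩)⟩) (by norm_num) cP9_2
  have n3 := piece hR (fun q hq => absurd hq (List.not_mem_nil)) (by norm_num) cP9_3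
  have n4 := piece hR (fun q hq => absurd hq (List.not_mem_nil)) (by norm_num) cP9_4
  have n5 := piece hR (fun q hq => absurd hq (List.not_mem_nil)) (by norm_num) cP9_5
  have n6 := piece hR (fun q hq => absurd hq (List.not_mem_nil)) (by norm_num) cP9_6
  have n7 := piece hR (fun q hq => absurd hq (List.not_mem_nil)) (by norm_num) cP9_7
  have n8 := piece hR (fun q hq => absurd hq (List.not_mem_nil)) (by norm_num) cP9_8
  have n9 := piece hR (List.forall_mem_cons.2 ⟨n6, (fun q hq => absurd hq (List.not_mem_nil))⟩) (by norm_num) cP9_9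
  have n10 := piece hR (fun q hq => absurd hq (List.not_mem_nil)) (by norm_num) cP9_10
  have n11 := piece hR (List.forall_mem_cons.2 ⟨n7, (fun q hq => absurd hq (List.not_mem_nil))⟩) (by norm_num) cP9_11
  have n12 := piece hR (fun q hq => absurd hq (List.not_mem_nil)) (by norm_num) cP9_12
  have n13 := piece hR (fun q hq => absurd hq (List.not_mem_nil)) (by norm_num) cP9_13
  have n14 := piece hR (List.forall_mem_cons.2 ⟨n12, (fun q hq => absurd hq (List.not_mem_nil))⟩) (by norm_num) cP9_14
  have n15 := piece hR (fun q hq => absurd hq (List.not_mem_nil)) (by norm_num) cP9_15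
  have n16 := piece hR (fun q hq => absurd hq (List.not_mem_nil)) (by norm_num) cP9_16
  have n17 := piece hR (fun q hq => absurd hq (List.not_mem_nil)) (by norm_num) cP9_17
  have n18 := piece hR (fun q hq => absurd hq (List.not_mem_nil)) (by norm_num) cP9_18
  have n19 := piece hR (fun q hq => absurd hq (List.not_mem_nil)) (by norm_num) cP9_19
  have n20 := piece hR (fun q hq => absurd hq (List.not_mem_nil)) (by norm_num) cP9_20
  have n21 := piece hR (fun q hq => absurd hq (List.not_mem_nil)) (by norm_num) cP9_21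
  have n22 := piece hR (fun q hq => absurd hq (List.not_mem_nil)) (by norm_num) cP9_22
  have n23 := piece hR (fun q hq => absurd hq (List.not_mem_nil)) (by norm_num) cP9_23
  have n24 := piece hR (fun q hq => absurd hq (List.not_mem_nil)) (by norm_num) cP9_24
  have n25 := piece hR (fun q hq => absurd hq (List.not_mem_nil)) (by norm_num) cP9_25
  have n26 := piece hR (List.forall_mem_cons.2 ⟨n19, (List.forall_mem_cons.2 ⟨n20, (List.forall_mem_cons.2 ⟨n21, (List.forall_mem_cons.2 ⟨n22, (List.forall_mem_cons.2 ⟨n23, (List.forall_mem_cons.2 ⟨n24, (List.forall_mem_cons.2 ⟨n25, (List.forall_mem_cons.2 ⟨n18, (fun q hq => absurd hq (List.not_mem_nil))⟩)⟩)⟩)⟩)⟩)⟩)⟩)⟩) (by norm_num) cP9_26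
  have n27 := piece hR (List.forall_mem_cons.2 ⟨n16, (fun q hq => absurd hq (List.not_mem_nil))⟩) (by norm_num) cP9_27
  have n28 := piece hR (List.forall_mem_cons.2 ⟨n26, (fun q hq => absurd hq (List.not_mem_nil))⟩) (by norm_num) cP9_28
  have n29 := piece hR (List.forall_mem_cons.2 ⟨n27, (List.forall_mem_cons.2 ⟨n17, (List.forall_mem_cons.2 ⟨n28, (fun q hq => absurd hq (List.not_mem_nil))⟩)⟩)⟩) (by norm_num) cP9_29
  have n30 := piece hR (List.forall_mem_cons.2 ⟨n14, (List.forall_mem_cons.2 ⟨n15, (List.forall_mem_cons.2 ⟨n13, (fun q hq => absurd hq (List.not_mem_nil))⟩)⟩)⟩) (by norm_num) cP9_30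
  have n31 := piece hR (fun q hq => absurd hq (List.not_mem_nil)) (by norm_num) cP9_31
  have n32 := piece hR (fun q hq => absurd hq (List.not_mem_nil)) (by norm_num) cP9_32
  have n33 := piece hR (fun q hq => absurd hq (List.not_mem_nil)) (by norm_num) cP9_33
  have n34 := piece hR (fun q hq => absurd hq (List.not_mem_nil)) (by norm_num) cP9_34
  have n35 := piece hR (fun q hq => absurd hq (List.not_mem_nil)) (by norm_num) cP9_35
  have n36 := piece hR (fun q hq => absurd hq (List.not_mem_nil)) (by norm_num) cP9_36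
  have n37 := piece hR (List.forall_mem_cons.2 ⟨n35, (fun q hq => absurd hq (List.not_mem_nil))⟩) (by norm_num) cP9_37
  have n38 := piece hR (fun q hq => absurd hq (List.not_mem_nil)) (by norm_num) cP9_38
  have n39 := piece hR (fun q hq => absurd hq (List.not_mem_nil)) (by norm_num) cP9_39
  have n40 := piece hR (fun q hq => absurd hq (List.not_mem_nil)) (by norm_num) cP9_40
  have n41 := piece hR (List.forall_mem_cons.2 ⟨n40, (List.forall_mem_cons.2 ⟨n39, (fun q hq => absurd hq (List.not_mem_nil))⟩)⟩) (by norm_num) cP9_41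
  have n42 := piece hR (fun q hq => absurd hq (List.not_mem_nil)) (by norm_num) cP9_42
  have n43 := piece hR (fun q hq => absurd hq (List.not_mem_nil)) (by norm_num) cP9_43
  have n44 := piece hR (List.forall_mem_cons.2 ⟨n33, (List.forall_mem_cons.2 ⟨n34, (fun q hq => absurd hq (List.not_mem_nil))⟩)⟩) (by norm_num) cP9_44
  have n45 := piece hR (fun q hq => absurd hq (List.not_mem_nil)) (by norm_num) cP9_45
  have n46 := piece hR (List.forall_mem_cons.2 ⟨n45, (fun q hq => absurd hq (List.not_mem_nil))⟩) (by norm_num) cP9_46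
  have n47 := piece hR (fun q hq => absurd hq (List.not_mem_nil)) (by norm_num) cP9_47
  have n48 := piece hR (fun q hq => absurd hq (List.not_mem_nil)) (by norm_num) cP9_48
  have n49 := piece hR (fun q hq => absurd hq (List.not_mem_nil)) (by norm_num) cP9_49
  have n50 := piece hR (fun q hq => absurd hq (List.not_mem_nil)) (by norm_num) cP9_50
  have n51 := piece hR (fun q hq => absurd hq (List.not_mem_nil)) (by norm_num) cP9_51
  have n52 := piece hR (fun q hq => absurd hq (List.not_mem_nil)) (by norm_num) cP9_52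
  have n53 := piece hR (fun q hq => absurd hq (List.not_mem_nil)) (by norm_num) cP9_53
  have n54 := piece hR (fun q hq => absurd hq (List.not_mem_nil)) (by norm_num) cP9_54
  have n55 := piece hR (fun q hq => absurd hq (List.not_mem_nil)) (by norm_num) cP9_55
  have n56 := piece hR (fun q hq => absurd hq (List.not_mem_nil)) (by norm_num) cP9_56
  have n57 := piece hR (fun q hq => absurd hq (List.not_mem_nil)) (by norm_num) cP9_57
  have n58 := piece hR (List.forall_mem_cons.2 ⟨n53, (List.forall_mem_cons.2 ⟨n49, (List.forall_mem_cons.2 ⟨n50, (List.forall_mem_cons.2 ⟨n51, (List.forall_mem_cons.2 ⟨n52, (List.forall_mem_cons.2 ⟨n54, (List.forall_mem_cons.2 ⟨n55, (List.forall_mem_cons.2 ⟨n56, (List.forall_mem_cons.2 ⟨n57, (fun q hq => absurd hq (List.not_mem_nil))⟩)⟩)⟩)⟩)⟩)⟩)⟩)⟩)⟩) (by norm_num) cP9_58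
  have n59 := piece hR (List.forall_mem_cons.2 ⟨n58, (fun q hq => absurd hq (List.not_mem_nil))⟩) (by norm_num) cP9_59
  have n60 := piece hR (fun q hq => absurd hq (List.not_mem_nil)) (by norm_num) cP9_60
  have n61 := piece hR (fun q hq => absurd hq (List.not_mem_nil)) (by norm_num) cP9_61
  have n62 := piece hR (fun q hq => absurd hq (List.not_mem_nil)) (by norm_num) cP9_62
  have n63 := piece hR (fun q hq => absurd hq (List.not_mem_nil)) (by norm_num) cP9_63
  have n64 := piece hR (fun q hq => absurd hq (List.not_mem_nil)) (by norm_num) cP9_64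
  have n65 := piece hR (List.forall_mem_cons.2 ⟨n48, (List.forall_mem_cons.2 ⟨n47, (List.forall_mem_cons.2 ⟨n46, (fun q hq => absurd hq (List.not_mem_nil))⟩)⟩)⟩) (by norm_num) cP9_65
  have n66 := piece hR (List.forall_mem_cons.2 ⟨n64, (fun q hq => absurd hq (List.not_mem_nil))⟩) (by norm_num) cP9_66
  have n67 := piece hR (List.forall_mem_cons.2 ⟨n61, (List.forall_mem_cons.2 ⟨n60, (List.forall_mem_cons.2 ⟨n59, (fun q hq => absurd hq (List.not_mem_nil))⟩)⟩)⟩) (by norm_num) cP9_67
  have n68 := piece hR (List.forall_mem_cons.2 ⟨n32, (List.forall_mem_cons.2 ⟨n31, (List.forall_mem_cons.2 ⟨n8, (List.forall_mem_cons.2 ⟨n9, (List.forall_mem_cons.2 ⟨n11, (List.forall_mem_cons.2 ⟨n10, (List.forall_mem_cons.2 ⟨n30, (List.forall_mem_cons.2 ⟨n29, (fun q hq => absurd hq (List.not_mem_nil))⟩)⟩)⟩)⟩)⟩)⟩)⟩)⟩) (by norm_num) cP9_68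
  have n69 := piece hR (List.forall_mem_cons.2 ⟨n2, (List.forall_mem_cons.2 ⟨n3, (List.forall_mem_cons.2 ⟨n4, (List.forall_mem_cons.2 ⟨n5, (fun q hq => absurd hq (List.not_mem_nil))⟩)⟩)⟩)⟩) (by norm_num) cP9_69
  have n70 := piece hR (List.forall_mem_cons.2 ⟨n44, (List.forall_mem_cons.2 ⟨n43, (List.forall_mem_cons.2 ⟨n37, (List.forall_mem_cons.2 ⟨n38, (List.forall_mem_cons.2 ⟨n36, (List.forall_mem_cons.2 ⟨n41, (List.forall_mem_cons.2 ⟨n42, (fun q hq => absurd hq (List.not_mem_nil))⟩)⟩)⟩)⟩)⟩)⟩)⟩) (by norm_num) cP9_70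
  have n71 := piece hR (List.forall_mem_cons.2 ⟨n69, (List.forall_mem_cons.2 ⟨n68, (List.forall_mem_cons.2 ⟨n70, (List.forall_mem_cons.2 ⟨n65, (List.forall_mem_cons.2 ⟨n67, (List.forall_mem_cons.2 ⟨n63, (List.forall_mem_cons.2 ⟨n62, (List.forall_mem_cons.2 ⟨n66, (fun q hq => absurd hq (List.not_mem_nil))⟩)⟩)⟩)⟩)⟩)⟩)⟩)⟩) (by norm_num) cP9_71
  have e : pathM 8 = 1725436587701977224637478018783066198960720758025280889967251359268866 := by decide +kernel
  rw [e]
  exact n71

end Pool.Agent.Run7.h878.LF
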