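import Pool.Agent.R140.PK.Cert8
import Pool.Agent.Run7.h878.LF.Cls
import Pool.Agent.Run7.h878.LF.TP9
import Pool.Agent.Run7.h878.LF.TA9
import Pool.Agent.Run7.h878.LF.TA10
import Pool.Agent.Run7.h878.LF.TB1a
import Pool.Agent.Run7.h878.LF.TB1b
import Pool.Agent.Run7.h878.LF.TB2a
import Pool.Agent.Run7.h878.LF.TB2b
import Pool.Agent.Run7.h878.LF.TB2c
import Pool.Agent.Run7.h878.LF.TB3a
import Pool.Agent.Run7.h878.LF.TB3b
import Pool.Agent.Run7.h878.LF.TB3c
import Pool.Agent.Run7.h878.LF.TB4a
import Pool.Agent.Run7.h878.LF.TB4b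
import Pool.Agent.Run7.h878.LF.TB4c

set_option autoImplicit false
set_option linter.unusedSectionVars false
set_option linter.unusedVariables false

/-!
# Graphs without some induced linear forests: flows over the group of order four or Petersen
quotients
-/

namespace Pool.Agent.Run7.h878.LF

open Finset Relation Pool.Agent.TH362.TF Pool.Agent.R890.FF Pool.Agent.R140.PK

theorem HasPat.head {V : Type} {R : V → V → Prop} {b b' : Bool} {l : List Bool}
    (h : HasPat R (b :: l)) : HasPat R (b' :: l) := by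
  obtain ⟨p, h1, h2⟩ := h
  refine ⟨p, by simpa using h1, fun i j hij hj => ?_⟩
  have h3 := h2 i j hij (by simpa using hj)
  obtain ⟨j', rfl⟩ : ∃ j', j = j' + 1 := ⟨j - 1, by omega⟩
  simpa using h3

section
variable {V E : Type} [Fintype V] [DecidableEq V] [DecidableEq E]
variable {s t : E → V} {S : Finset E}

theorem Mc.p9 (h : Mc s t S) : HasPat (Nb s t S) (pathP 9) := by
  obtain ⟨q, hq, h1⟩ := Mc.step h (k := 8) (by norm_num) (by decide +kernel)
    (Mc.has8 h ⟨25, data8, cert8⟩) (fun hR => sP9 hR)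
  rw [List.mem_singleton] at hq
  subst hq
  exact h1.head

theorem Mc.stage2 (h : Mc s t S) {k : ℕ} (hk : k < 32) (hok : okM k = true)
    (hP : HasPat (Nb s t S) (pathP k)) {q l : List Bool} {b : Bool}
    (hl : true :: l = pathP (k + 1))
    (hc : ∀ {R : V → V → Prop}, Hyp2 R [q, b :: l] → NE R k (pathM k)) :
    HasPat (Nb s t S) q ∨ HasPat (Nb s t S) (pathP (k + 1)) := by
  obtain ⟨q', hq, h1⟩ := Mc.step h hk hok hP hc
  rw [List.mem_cons, List.mem_singleton] at hq
  rcases hq with rfl | rfl
  · exact Or.inl h1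
  · rw [← hl]
    exact Or.inr h1.head

theorem Mc.stage1 (h : Mc s t S) {k : ℕ} (hk : k < 32) (hok : okM k = true)
    (hP : HasPat (Nb s t S) (pathP k)) {q : List Bool}
    (hc : ∀ {R : V → V → Prop}, Hyp2 R [q] → NE R k (pathM k)) :
    HasPat (Nb s t S) q := by
  obtain ⟨q', hq, h1⟩ := Mc.step h hk hok hP hc
  rw [List.mem_singleton] at hq
  subst hq
  exact h1

theorem Mc.a (h : Mc s t S) : HasF (Nb s t S) [9, 1] := by
  have key : HasPat (Nb s t S) (flat [9, 1]) := by
    rcases Mc.stage2 h (by norm_num) (by decide +kernel) (Mc.p9 h) (by decide)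
      (fun hR => sA9 hR) with h1 | h1
    · exact h1
    · exact Mc.stage1 h (by norm_num) (by decide +kernel) h1 (fun hR => sA10 hR)
  exact key.hasF (fun a b => nb_comm) (by decide)

theorem Mc.b1 (h : Mc s t S) : HasF (Nb s t S) [5, 2, 2] := by
  have key : HasPat (Nb s t S) (flat [5, 2, 2]) := by
    rcases Mc.stage2 h (by norm_num) (by decide +kernel) (Mc.p9 h) (by decide)
      (fun hR => sB1a hR) with h1 | h1
    · exact h1
    · exact Mc.stage1 h (by norm_num) (by decide +kernel) h1 (fun hR => sB1b hR)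
  exact key.hasF (fun a b => nb_comm) (by decide)

theorem Mc.b2 (h : Mc s t S) : HasF (Nb s t S) [4, 2, 2, 1] := by
  have key : HasPat (Nb s t S) (flat [4, 2, 2, 1]) := by
    rcases Mc.stage2 h (by norm_num) (by decide +kernel) (Mc.p9 h) (by decide)
      (fun hR => sB2a hR) with h1 | h1
    · exact h1
    rcases Mc.stage2 h (by norm_num) (by decide +kernel) h1 (by decide)
      (fun hR => sB2b hR) with h1 | h1
    · exact h1
    · exact Mc.stage1 h (by norm_num) (by decide +kernel) h1 (fun hR => sB2c hR)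
  exact key.hasF (fun a b => nb_comm) (by decide)

theorem Mc.b3 (h : Mc s t S) : HasF (Nb s t S) [4, 1, 1, 1, 1] := by
  have key : HasPat (Nb s t S) (flat [4, 1, 1, 1, 1]) := by
    rcases Mc.stage2 h (by norm_num) (by decide +kernel) (Mc.p9 h) (by decide)
      (fun hR => sB3a hR) with h1 | h1
    · exact h1
    rcases Mc.stage2 h (by norm_num) (by decide +kernel) h1 (by decide)
      (fun hR => sB3b hR) with h1 | h1
    · exact h1
    · exact Mc.stage1 h (by norm_num) (by decide +kernel) h1 (fun hR => sB3c hR)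
  exact key.hasF (fun a b => nb_comm) (by decide)

theorem Mc.b4 (h : Mc s t S) : HasF (Nb s t S) [3, 2, 1, 1, 1] := by
  have key : HasPat (Nb s t S) (flat [3, 2, 1, 1, 1]) := by
    rcases Mc.stage2 h (by norm_num) (by decide +kernel) (Mc.p9 h) (by decide)
      (fun hR => sB4a hR) with h1 | h1
    · exact h1
    rcases Mc.stage2 h (by norm_num) (by decide +kernel) h1 (by decide)
      (fun hR => sB4b hR) with h1 | h1
    · exact h1
    · exact Mc.stage1 h (by norm_num) (by decide +kernel) h1 (fun hR => sB4c hR)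
  exact key.hasF (fun a b => nb_comm) (by decide)

/-- the linear forests of the second theorem -/
theorem Mc.b (h : Mc s t S) (ks : List ℕ)
    (hks : ks ∈ ([[5, 2, 2], [4, 2, 2, 1], [4, 1, 1, 1, 1], [3, 2, 1, 1, 1]] : List (List ℕ))) :
    HasF (Nb s t S) ks := by
  simp only [List.mem_cons, List.not_mem_nil, or_false] at hks
  rcases hks with rfl | rfl | rfl | rfl
  · exact Mc.b1 h
  · exact Mc.b2 h
  · exact Mc.b3 h
  · exact Mc.b4 h

end

section
variable {V E : Type} [Fintype V] [DecidableEq V] [Fintype E] [DecidableEq E]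

/-- the linear forest is an induced subgraph of every minimal contraction -/
def Unav (V E : Type) [Fintype V] [DecidableEq V] [Fintype E] [DecidableEq E] (ks : List ℕ) :
    Prop := ∀ s t : E → V, Mc s t univ → HasF (Nb s t univ) ks

theorem unavA : Unav V E [9, 1] := fun _ _ h => Mc.a h

theorem unavB (ks : List ℕ)
    (hks : ks ∈ ([[5, 2, 2], [4, 2, 2, 1], [4, 1, 1, 1, 1], [3, 2, 1, 1, 1]] : List (List ℕ))) :
    Unav V E ks := fun _ _ h => Mc.b h ks hks

/-- flows or Petersen quotients -/
theorem mainF {ks : List ℕ} (hks : Unav V E ks) (s t : E → V) (hF : ¬ HasF (Nb s t univ) ks)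
    (hn : N1 s t univ) : NZ s t univ ∨ PQ s t univ := by
  classical
  by_cases h1 : NZ s t univ
  · exact Or.inl h1
  by_cases h2 : PQ s t univ
  · exact Or.inr h2
  exfalso
  obtain ⟨π, hπ, hM⟩ := exists_Mc s t univ hn h1 h2
  exact hF (HasF.lift hπ (hks _ _ hM))

end

end Pool.Agent.Run7.h878.LF
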