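import Pool.Agent.N410.DC.Rg
import Pool.Agent.Run7.h878.LF.Fin

/-!
# Six even subgraphs: graphs without an induced linear forest

`ForestsModuloPieces src dst`: for some chain of sets of edges (pieces) with union `F` (for instance
the empty chain) the graph which arises by the contraction of the edges of `F` does not contain one
of the linear forests `P9 + P1`, `P5 + 2 P2`, `P4 + 2 P2 + P1`, `P4 + 4 P1`, `P3 + P2 + 3 P1` as an
induced subgraph. The theorem `six` is the result of the files in this folder for these graphs. The
lemmas after it (from six even subgraphs to perfect matchings and 2-factors of cubic graphs) are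
those of the starting files `Pool/Agent/Y425/BF6/Cor.lean`, `Pool/Agent/Y425/BF6/Tf.lean` and
`Pool/Agent/Results/MP_b7f2ce_co/CutwidthSix.lean`.
-/

set_option autoImplicit false
set_option linter.unusedSectionVars false

namespace Pool.Agent.Run7.h878.LF.Six

open Finset

/-- The edges with exactly one end in `X`. -/
def boundary {V E : Type} [DecidableEq V] [Fintype E] (src dst : E → V) (X : Finset V) :
    Finset E :=
  univ.filter (fun e => ¬ (src e ∈ X ↔ dst e ∈ X))

/-- The union of the sets `C j` with `j < i`. -/
def earlier {E : Type} [DecidableEq E] {m : ℕ} (C : Fin m → Finset E) (i : Fin m) : Finset E :=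
  (univ.filter (fun j => j < i)).biUnion C

/-- `H` can be added to the chain after `F`: either (short) `H` has at most four edges outside `F`
and no bridge modulo `F`: no set `Y` of vertices without boundary edges in `F` has exactly one
boundary edge in `H`; or (doubly connected) `H` contains two disjoint sets each of which connects,
modulo `F`, whatever `H` connects: every set `Y` of vertices without boundary edges in `F` and with
a boundary edge in `H` has boundary edges in both sets. -/
def Adds {V E : Type} [DecidableEq V] [Fintype E] [DecidableEq E] (src dst : E → V)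
    (F H : Finset E) : Prop :=
  ((H \ F).card ≤ 4 ∧ ∀ Y : Finset V, Disjoint (boundary src dst Y) F →
    (boundary src dst Y ∩ H).card ≠ 1) ∨
  ∃ T₁ T₂ : Finset E, T₁ ⊆ H ∧ T₂ ⊆ H ∧ Disjoint T₁ T₂ ∧ ∀ Y : Finset V,
    Disjoint (boundary src dst Y) F → ¬ Disjoint (boundary src dst Y) H →
      ¬ Disjoint (boundary src dst Y) T₁ ∧ ¬ Disjoint (boundary src dst Y) T₂

/-- The map `r` contracts the edges of `F` and nothing else: the ends of every edge of `F` have the
same image, and no set `Y` of vertices without boundary edges in `F` separates `v` and `r v` (so `v`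
and `r v` are in the same component of the graph formed by the edges of `F`). The contracted graph is
the graph in which the ends of the edge `e` are the images of the ends of `e`. -/
def Contracts {V E : Type} [DecidableEq V] [Fintype E] [DecidableEq E] (src dst : E → V)
    (F : Finset E) (r : V → V) : Prop :=
  (∀ e ∈ F, r (src e) = r (dst e)) ∧
    ∀ v, ∀ Y : Finset V, Disjoint (boundary src dst Y) F → (v ∈ Y ↔ r v ∈ Y)

/-- The vertices `x` and `y` are different and joined by an edge. -/
def Adjacent {V E : Type} (s t : E → V) (x y : V) : Prop :=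
  x ≠ y ∧ ∃ e, (s e = x ∧ t e = y) ∨ (s e = y ∧ t e = x)

/-- The graph has an induced subgraph without isolated vertices of the graph which is the disjoint
union of paths; the list `ks` contains the numbers of vertices of the paths. The paths are the lists
in `P`: two vertices of a path are adjacent if and only if they are consecutive in the list, and
vertices of different paths are different and not adjacent. Every vertex has a neighbour in the
whole graph. -/
def HasLinearForest {V E : Type} (s t : E → V) (ks : List ℕ) : Prop :=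
  ∃ P : List (List V), P.map List.length = ks ∧ (∀ l ∈ P, ∀ x ∈ l, ∃ y, Adjacent s t x y) ∧
    (∀ l ∈ P, ∀ (i j : ℕ) (hi : i < l.length) (hj : j < l.length), i < j →
      l[i] ≠ l[j] ∧ (Adjacent s t l[i] l[j] ↔ i + 1 = j)) ∧
    P.Pairwise (fun l l' => ∀ x ∈ l, ∀ y ∈ l', x ≠ y ∧ ¬ Adjacent s t x y)

/-- One of the linear forests `P9 + P1`, `P5 + 2 P2`, `P4 + 2 P2 + P1`, `P4 + 4 P1` and
`P3 + P2 + 3 P1` is not an induced subgraph. (For instance, there is no induced matching with four
edges, or no induced path with nine vertices.) -/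
def MissesLinearForest {V E : Type} (s t : E → V) : Prop :=
  ∃ ks ∈ ([[9, 1], [5, 2, 2], [4, 2, 2, 1], [4, 1, 1, 1, 1], [3, 2, 1, 1, 1]] : List (List ℕ)),
    ¬ HasLinearForest s t ks

/-- For some chain of sets of edges with union `F` (for instance the empty chain) the graph which
arises by the contraction of the edges of `F` has the property above: one of the five
linear forests is missing. -/
def ForestsModuloPieces {V E : Type} [Fintype V] [DecidableEq V] [Fintype E] [DecidableEq E]
    (src dst : E → V) : Prop :=
  ∃ (m : ℕ) (C : Fin m → Finset E) (r : V → V), (∀ i, Adds src dst (earlier C i) (C i)) ∧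
    Contracts src dst (univ.biUnion C) r ∧
      MissesLinearForest (fun e => r (src e)) (fun e => r (dst e))

/-- all degrees are even, where a loop counts twice -/
def Cyc {V E : Type} [DecidableEq V] (src dst : E → V) (C : Finset E) : Prop :=
  ∀ v, Even (∑ e ∈ C, ((if src e = v then 1 else 0) + (if dst e = v then 1 else 0)))

/-- six cycles cover every edge exactly four times -/
def Six {V E : Type} [DecidableEq V] [DecidableEq E] (src dst : E → V) : Prop :=
  ∃ C : Fin 6 → Finset E, (∀ i, Cyc src dst (C i)) ∧
    ∀ e, (univ.filter (fun i => e ∈ C i)).card = 4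

variable {V E : Type} [Fintype V] [DecidableEq V] [Fintype E] [DecidableEq E]

/-- any three of the six cycles cover all edges -/
theorem three_cover {C : Fin 6 → Finset E} (h : ∀ e, (univ.filter (fun i => e ∈ C i)).card = 4)
    {i j k : Fin 6} (hij : i ≠ j) (hik : i ≠ k) (hjk : j ≠ k) (e : E) :
    e ∈ C i ∨ e ∈ C j ∨ e ∈ C k := by
  by_contra hcon
  push Not at hcon
  obtain ⟨h1, h2, h3⟩ := hcon
  have h4 : univ.filter (fun i => e ∈ C i) ⊆ (univ : Finset (Fin 6)) \ {i, j, k} := by
    intro x hx
    rw [mem_filter] at hx
    rw [mem_sdiff, mem_insert, mem_insert, mem_singleton]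
    refine ⟨mem_univ _, ?_⟩
    rintro (rfl | rfl | rfl)
    · exact h1 hx.2
    · exact h2 hx.2
    · exact h3 hx.2
  have h5 := card_le_card h4
  rw [h, card_sdiff_of_subset (subset_univ _), card_univ, Fintype.card_fin,
    card_insert_of_notMem (by simp [hij, hik]), card_pair hjk] at h5
  omega

theorem six_two (s : Fin 6 → ℕ) (h : ∀ j, s j ≤ 2)
    (hs : s 0 + s 1 + s 2 + s 3 + s 4 + s 5 = 12) (i : Fin 6) : s i = 2 := by
  have a0 := h 0
  have a1 := h 1
  have a2 := h 2
  have a3 := h 3
  have a4 := h 4
  have a5 := h 5
  match i with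
  | 0 => omega
  | 1 => omega
  | 2 => omega
  | 3 => omega
  | 4 => omega
  | 5 => omega

/-- in a cubic graph the six cycles are 2-factors -/
theorem factor {src dst : E → V} {C : Fin 6 → Finset E} (hC : ∀ i, Cyc src dst (C i))
    (h4 : ∀ e, (univ.filter (fun i => e ∈ C i)).card = 4) (v : V)
    (h3 : ∑ e, ((if src e = v then 1 else 0) + (if dst e = v then 1 else 0)) = 3) (i : Fin 6) :
    ∑ e ∈ C i, ((if src e = v then 1 else 0) + (if dst e = v then 1 else 0)) = 2 := by
  set d : E → ℕ := fun e => (if src e = v then 1 else 0) + (if dst e = v then 1 else 0) with hd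
  have hle : ∀ j, ∑ e ∈ C j, d e ≤ 2 := by
    intro j
    have h1 : ∑ e ∈ C j, d e ≤ ∑ e, d e :=
      sum_le_sum_of_subset (subset_univ _)
    have h2 : ∑ e, d e = 3 := h3
    have h5 : Even (∑ e ∈ C j, d e) := hC j v
    rw [h2] at h1
    obtain ⟨k, hk⟩ := h5
    omega
  have hs : ∑ j, ∑ e ∈ C j, d e = 12 := by
    have h1 : ∀ j, ∑ e ∈ C j, d e = ∑ e, if e ∈ C j then d e else 0 := by
      intro j
      rw [sum_ite_mem, univ_inter]
    rw [sum_congr rfl fun j _ => h1 j, sum_comm]
    have h2 : ∀ e, (∑ j, if e ∈ C j then d e else 0) = 4 * d e := by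
      intro e
      rw [← sum_filter, sum_const, h4, smul_eq_mul]
    rw [sum_congr rfl fun e _ => h2 e, ← mul_sum]
    have h2 : ∑ e, d e = 3 := h3
    rw [h2]
    rfl
  rw [Fin.sum_univ_six] at hs
  exact six_two (fun j => ∑ e ∈ C j, d e) hle hs i

/-- the complement of a 2-factor of a cubic graph is a perfect matching -/
theorem compl_one {src dst : E → V} {C : Finset E} {v : V}
    (h3 : ∑ e, ((if src e = v then 1 else 0) + (if dst e = v then 1 else 0)) = 3)
    (h2 : ∑ e ∈ C, ((if src e = v then 1 else 0) + (if dst e = v then 1 else 0)) = 2) :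
    ∑ e ∈ Cᶜ, ((if src e = v then 1 else 0) + (if dst e = v then 1 else 0)) = 1 := by
  have h := sum_add_sum_compl C
    (fun e => ((if src e = v then 1 else 0) + (if dst e = v then 1 else 0)))
  rw [h2, h3] at h
  omega

/-- a cycle has an even number of edges in every cut -/
theorem cut_even {src dst : E → V} {C : Finset E} (hC : Cyc src dst C) (X : Finset V) :
    Even (C.filter (fun e => ¬ (src e ∈ X ↔ dst e ∈ X))).card := by
  have h1 : Even (∑ v ∈ X, ∑ e ∈ C, ((if src e = v then 1 else 0) +
      (if dst e = v then 1 else 0))) := even_sum _ (fun v _ => hC v)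
  rw [sum_comm] at h1
  have h2 : ∀ e, (∑ v ∈ X, ((if src e = v then 1 else 0) + (if dst e = v then 1 else 0))) =
      (if src e ∈ X then 1 else 0) + (if dst e ∈ X then 1 else 0) := by
    intro e
    rw [sum_add_distrib, sum_ite_eq, sum_ite_eq]
  rw [sum_congr rfl fun e _ => h2 e] at h1
  rw [← ZMod.natCast_eq_zero_iff_even] at h1 ⊢
  refine Eq.trans ?_ h1
  rw [card_filter, Nat.cast_sum, Nat.cast_sum]
  refine sum_congr rfl fun e _ => ?_
  by_cases a : src e ∈ X <;> by_cases b : dst e ∈ X <;> simp [a, b]
  decide

/-- an odd cut is not contained in two of the three perfect matchings -/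
theorem two_pm {src dst : E → V} (h : Six src dst)
    (h3 : ∀ v, ∑ e, ((if src e = v then 1 else 0) + (if dst e = v then 1 else 0)) = 3) :
    ∃ M₁ M₂ : Finset E,
      (∀ v, ∑ e ∈ M₁, ((if src e = v then 1 else 0) + (if dst e = v then 1 else 0)) = 1) ∧
      (∀ v, ∑ e ∈ M₂, ((if src e = v then 1 else 0) + (if dst e = v then 1 else 0)) = 1) ∧
      ∀ X : Finset V, Odd (univ.filter (fun e => ¬ (src e ∈ X ↔ dst e ∈ X))).card →
        ¬ univ.filter (fun e => ¬ (src e ∈ X ↔ dst e ∈ X)) ⊆ M₁ ∩ M₂ := by
  obtain ⟨C, hC, h4⟩ := h
  refine ⟨(C 0)ᶜ, (C 1)ᶜ, fun v => compl_one (h3 v) (factor hC h4 v (h3 v) 0),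
    fun v => compl_one (h3 v) (factor hC h4 v (h3 v) 1), fun X hX hsub => ?_⟩
  have h5 := cut_even (hC 2) X
  have h6 : univ.filter (fun e => ¬ (src e ∈ X ↔ dst e ∈ X)) =
      (C 2).filter (fun e => ¬ (src e ∈ X ↔ dst e ∈ X)) := by
    apply subset_antisymm
    · intro e he
      have h7 := hsub he
      rw [mem_inter, mem_compl, mem_compl] at h7
      rw [mem_filter] at he ⊢
      refine ⟨?_, he.2⟩
      rcases three_cover h4 (i := 0) (j := 1) (k := 2) (by decide) (by decide) (by decide) e
        with h | h | h
      · exact absurd h h7.1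
      · exact absurd h h7.2
      · exact h
    · exact filter_subset_filter _ (subset_univ _)
  rw [h6] at hX
  exact (Nat.not_even_iff_odd.mpr hX) h5


/-- six even subgraphs -/
theorem six (src dst : E → V)
    (hb : ∀ Z : Finset V, (univ.filter fun e => ¬ (src e ∈ Z ↔ dst e ∈ Z)).card ≠ 1)
    (h : ForestsModuloPieces src dst) : Six src dst := by
  classical
  have hcut : Pool.Agent.TH676.A.Br src dst ∅ ∅ := by
    intro Y _ hY
    rw [sdiff_empty] at hY
    exact hb Y hY
  obtain ⟨m, C, r, hC, hr, ks, hks, hO⟩ := h
  rcases List.mem_cons.1 hks with rfl | hks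
  · obtain ⟨C, h1, h2⟩ := Pool.Agent.TH497.BF.six
      (bf_nice (CCl.nice unavA) src dst hcut
        (CCl.of_steps hC hr (fun h => hO (hasF_iff.1 h))))
    exact ⟨C, h1, h2⟩
  · obtain ⟨C, h1, h2⟩ := Pool.Agent.TH497.BF.six
      (bf_nice (CCl.nice (unavB ks hks)) src dst hcut
        (CCl.of_steps hC hr (fun h => hO (hasF_iff.1 h))))
    exact ⟨C, h1, h2⟩

theorem third : ∀ i j : Fin 6, ∃ k, i ≠ k ∧ j ≠ k := by decide

/-- in a cubic graph the complements of the six even subgraphs are perfect matchings, every edge is
in exactly two of them, and the intersection of two of them contains no odd cut -/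
theorem six_pm {src dst : E → V} (h : Six src dst)
    (h3 : ∀ v, ∑ e, ((if src e = v then 1 else 0) + (if dst e = v then 1 else 0)) = 3) :
    ∃ M : Fin 6 → Finset E,
      (∀ i v, ∑ e ∈ M i, ((if src e = v then 1 else 0) + (if dst e = v then 1 else 0)) = 1) ∧
      (∀ e, (univ.filter fun i => e ∈ M i).card = 2) ∧
      ∀ i j, i ≠ j → ∀ X : Finset V, Odd (univ.filter (fun e => ¬ (src e ∈ X ↔ dst e ∈ X))).card →
        ¬ univ.filter (fun e => ¬ (src e ∈ X ↔ dst e ∈ X)) ⊆ M i ∩ M j := by
  obtain ⟨C, hC, h4⟩ := h
  refine ⟨fun i => (C i)ᶜ, fun i v => compl_one (h3 v) (factor hC h4 v (h3 v) i), ?_, ?_⟩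
  · intro e
    have h5 : (univ.filter fun i => e ∈ (C i)ᶜ) = (univ.filter fun i => e ∈ C i)ᶜ := by
      ext i
      simp
    rw [h5, card_compl, h4 e, Fintype.card_fin]
  · intro i j hij X hX hsub
    obtain ⟨k, hik, hjk⟩ := third i j
    have h5 := cut_even (hC k) X
    have h6 : univ.filter (fun e => ¬ (src e ∈ X ↔ dst e ∈ X)) =
        (C k).filter (fun e => ¬ (src e ∈ X ↔ dst e ∈ X)) := by
      apply subset_antisymm
      · intro e he
        have h7 := hsub he
        rw [mem_inter, mem_compl, mem_compl] at h7
        rw [mem_filter] at he ⊢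
        refine ⟨?_, he.2⟩
        rcases three_cover h4 (i := i) (j := j) (k := k) hij hik hjk e with h | h | h
        · exact absurd h h7.1
        · exact absurd h h7.2
        · exact h
      · exact filter_subset_filter _ (subset_univ _)
    rw [h6] at hX
    exact (Nat.not_even_iff_odd.mpr hX) h5

/-- the edges at the vertex `v` -/
def star {V E : Type} [DecidableEq V] [Fintype E] (src dst : E → V) (v : V) : Finset E :=
  univ.filter fun e => src e = v ∨ dst e = v

/-- a choice from the classes of one partition which meets all classes of the other -/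
theorem pick : ∀ w : Fin 3 → Bool → Fin 3,
    (∀ k, (univ.filter fun p : Fin 3 × Bool => w p.1 p.2 = k).card = 2) →
    ∃ c : Fin 3 → Bool, ∀ i j, w i (c i) = w j (c j) → i = j := by
  decide +kernel

/-- two partitions of six elements into pairs have a common transversal -/
theorem transversal {u w : Fin 6 → Fin 3} (hu : ∀ j, (univ.filter fun k => u k = j).card = 2)
    (hw : ∀ j, (univ.filter fun k => w k = j).card = 2) :
    ∃ σ : Fin 3 → Fin 6, (∀ i, u (σ i) = i) ∧ Function.Injective fun i => w (σ i) := by
  have h1 : ∀ j, ∃ a b : Fin 6, a ≠ b ∧ u a = j ∧ u b = j := by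
    intro j
    obtain ⟨a, b, hab, h⟩ := card_eq_two.mp (hu j)
    refine ⟨a, b, hab, ?_, ?_⟩
    · have : a ∈ univ.filter fun k => u k = j := by rw [h]; simp
      exact (mem_filter.mp this).2
    · have : b ∈ univ.filter fun k => u k = j := by rw [h]; simp
      exact (mem_filter.mp this).2
  choose α β h2 h3 h4 using h1
  have h5 : ∀ (j : Fin 3) (b : Bool), u (if b then β j else α j) = j := by
    intro j b
    cases b
    · exact h3 j
    · exact h4 j
  have hinj : Function.Injective fun p : Fin 3 × Bool => if p.2 then β p.1 else α p.1 := by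
    rintro ⟨i, b⟩ ⟨j, c⟩ h
    have h6 : i = j := by
      rw [← h5 i b, ← h5 j c]; exact congrArg u h
    subst h6
    have h7 : (if b then β i else α i) = (if c then β i else α i) := h
    cases b <;> cases c
    · rfl
    · exact absurd h7 (h2 i)
    · exact absurd h7.symm (h2 i)
    · rfl
  have hbij : Function.Bijective fun p : Fin 3 × Bool => if p.2 then β p.1 else α p.1 := by
    rw [Fintype.bijective_iff_injective_and_card]
    exact ⟨hinj, by simp⟩
  obtain ⟨c, hc⟩ := pick (fun j b => w (if b then β j else α j)) (by
    intro k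
    rw [← hw k]
    refine card_bij (fun p _ => if p.2 then β p.1 else α p.1) ?_ ?_ ?_
    · intro p hp
      rw [mem_filter] at hp ⊢
      exact ⟨mem_univ _, hp.2⟩
    · intro p _ q _ h
      exact hinj h
    · intro x hx
      obtain ⟨p, hp⟩ := hbij.2 x
      refine ⟨p, ?_, hp⟩
      rw [mem_filter] at hx ⊢
      refine ⟨mem_univ _, ?_⟩
      have h8 : (if p.2 then β p.1 else α p.1) = x := hp
      rw [h8]
      exact hx.2)
  exact ⟨fun j => if c j then β j else α j, fun i => h5 i (c i), fun i j h => hc i j h⟩


variable {src dst : E → V}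

/-- the degree of `v` in the set of edges `F`, where a loop counts twice -/
def dg (src dst : E → V) (F : Finset E) (v : V) : ℕ :=
  ∑ e ∈ F, ((if src e = v then 1 else 0) + (if dst e = v then 1 else 0))

/-- the complements of six even subgraphs in a cubic graph -/
theorem compl6 {C : Fin 6 → Finset E} (h1 : ∀ i v, Even (dg src dst (C i) v))
    (h2 : ∀ e, (univ.filter fun i => e ∈ C i).card = 4) (h3 : ∀ v, dg src dst univ v = 3) :
    (∀ i v, dg src dst (univ \ C i) v = 1) ∧
      ∀ e, (univ.filter fun i => e ∈ univ \ C i).card = 2 := by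
  have hM : ∀ e, (univ.filter fun i => e ∈ univ \ C i).card = 2 := by
    intro e
    have h4 := h2 e
    have h5 : (univ.filter fun i => e ∈ univ \ C i).card + (univ.filter fun i => e ∈ C i).card =
        6 := by
      rw [← card_union_of_disjoint]
      · have : (univ.filter fun i => e ∈ univ \ C i) ∪ (univ.filter fun i => e ∈ C i) = univ := by
          ext i
          simp only [mem_union, mem_filter, mem_univ, true_and, mem_sdiff]
          tauto
        rw [this, card_univ, Fintype.card_fin]
      · rw [disjoint_left]
        intro i h6 h7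
        rw [mem_filter, mem_sdiff] at h6
        rw [mem_filter] at h7
        exact h6.2.2 h7.2
    omega
  refine ⟨fun i v => ?_, hM⟩
  -- the complement of each even subgraph has odd degrees
  have h4 : ∀ j, 1 ≤ dg src dst (univ \ C j) v := by
    intro j
    have h5 : dg src dst (univ \ C j) v + dg src dst (C j) v = 3 := by
      rw [← h3 v]
      unfold dg
      exact sum_sdiff (subset_univ _)
    obtain ⟨k, hk⟩ : Even (dg src dst (C j) v) := h1 j v
    omega
  -- the sum of the six degrees is six
  have h5 : ∑ j, dg src dst (univ \ C j) v = 6 := by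
    have h6 : ∀ j, dg src dst (univ \ C j) v = ∑ e, if e ∈ univ \ C j then
        ((if src e = v then 1 else 0) + (if dst e = v then 1 else 0)) else 0 := by
      intro j
      unfold dg
      rw [sum_ite_mem, univ_inter]
    rw [sum_congr rfl fun j _ => h6 j, sum_comm]
    have h7 : ∀ e, (∑ j, if e ∈ univ \ C j then
        ((if src e = v then 1 else 0) + (if dst e = v then 1 else 0)) else 0) =
        2 * ((if src e = v then 1 else 0) + (if dst e = v then 1 else 0)) := by
      intro e
      rw [← sum_filter, sum_const, hM e, smul_eq_mul]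
    rw [sum_congr rfl fun e _ => h7 e, ← mul_sum]
    have h8 : dg src dst univ v = 3 := h3 v
    unfold dg at h8
    rw [h8]
    norm_num
  have h6 : dg src dst (univ \ C i) v + ∑ j ∈ univ.erase i, dg src dst (univ \ C j) v =
      ∑ j, dg src dst (univ \ C j) v :=
    add_sum_erase univ (fun j => dg src dst (univ \ C j) v) (mem_univ i)
  have h7 : 5 ≤ ∑ j ∈ univ.erase i, dg src dst (univ \ C j) v := by
    have h8 := card_nsmul_le_sum (univ.erase i) (fun j => dg src dst (univ \ C j) v) 1
      (fun j _ => h4 j)
    rw [card_erase_of_mem (mem_univ _), card_univ, Fintype.card_fin] at h8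
    simpa using h8
  have h8 := h4 i
  change dg src dst (univ \ C i) v = 1
  omega

theorem dg_card (hl : ∀ e, src e ≠ dst e) (F : Finset E) (v : V) :
    dg src dst F v = (F.filter fun e => e ∈ star src dst v).card := by
  unfold dg
  rw [card_filter]
  refine sum_congr rfl fun e _ => ?_
  have h := hl e
  simp only [star, mem_filter, mem_univ, true_and]
  by_cases h1 : src e = v <;> by_cases h2 : dst e = v
  · exact absurd (h1.trans h2.symm) h
  · simp [h1, h2]
  · simp [h1, h2]
  · simp [h1, h2]

theorem deg3 (hl : ∀ e, src e ≠ dst e) (hc : ∀ v, (star src dst v).card = 3) (v : V) :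
    dg src dst univ v = 3 := by
  rw [dg_card hl, ← hc v]
  congr 1
  ext e
  simp

/-- the edges at a vertex and the edge which each matching uses there -/
theorem at_vertex (hl : ∀ e, src e ≠ dst e) (hc : ∀ v, (star src dst v).card = 3)
    {C : Fin 6 → Finset E} (h1 : ∀ i v, Even (dg src dst (C i) v))
    (h2 : ∀ e, (univ.filter fun i => e ∈ C i).card = 4) (v : V) :
    ∃ (a : Fin 3 → E) (u : Fin 6 → Fin 3), Function.Injective a ∧
      star src dst v = univ.image a ∧ (∀ k j, a j ∈ C k ↔ u k ≠ j) ∧
      ∀ j, (univ.filter fun k => u k = j).card = 2 := by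
  obtain ⟨h4, h5⟩ := compl6 h1 h2 (deg3 hl hc)
  obtain ⟨x, y, z, hxy, hxz, hyz, hs⟩ := card_eq_three.mp (hc v)
  have ha : Function.Injective ![x, y, z] := by
    intro i j
    fin_cases i <;> fin_cases j <;> simp [hxy, hxz, hyz, hxy.symm, hxz.symm, hyz.symm]
  have hst : star src dst v = univ.image ![x, y, z] := by
    rw [hs]
    ext e
    simp only [mem_insert, mem_singleton, mem_image, mem_univ, true_and, Fin.exists_fin_succ,
      Matrix.cons_val_zero, Matrix.cons_val_succ, IsEmpty.exists_iff, or_false]
    constructor
    · rintro (rfl | rfl | rfl)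
      · exact Or.inl rfl
      · exact Or.inr (Or.inl rfl)
      · exact Or.inr (Or.inr rfl)
    · rintro (rfl | rfl | rfl)
      · exact Or.inl rfl
      · exact Or.inr (Or.inl rfl)
      · exact Or.inr (Or.inr rfl)
  have h6 : ∀ k, ∃ j : Fin 3, ∀ j', ![x, y, z] j' ∈ C k ↔ j ≠ j' := by
    intro k
    have h7 := h4 k v
    rw [dg_card hl] at h7
    obtain ⟨e, he⟩ := card_eq_one.mp h7
    have h8 : e ∈ (univ \ C k).filter fun e => e ∈ star src dst v := by rw [he]; simp
    rw [mem_filter, mem_sdiff] at h8
    have h9 : e ∈ univ.image ![x, y, z] := by rw [← hst]; exact h8.2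
    obtain ⟨j, _, hj⟩ := mem_image.mp h9
    refine ⟨j, fun j' => ⟨fun h10 h11 => ?_, fun h10 => ?_⟩⟩
    · rw [← h11, hj] at h10
      exact h8.1.2 h10
    · by_contra h11
      have h12 : ![x, y, z] j' ∈ (univ \ C k).filter fun e => e ∈ star src dst v := by
        rw [mem_filter, mem_sdiff]
        refine ⟨⟨mem_univ _, h11⟩, ?_⟩
        rw [hst]
        exact mem_image_of_mem _ (mem_univ _)
      rw [he, mem_singleton, ← hj] at h12
      exact h10 (ha h12).symm
  choose u hu using h6
  refine ⟨![x, y, z], u, ha, hst, hu, fun j => ?_⟩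
  rw [← h5 (![x, y, z] j)]
  congr 1
  ext k
  simp only [mem_filter, mem_univ, true_and, mem_sdiff]
  rw [hu k j, not_not]

/-- the matchings with different edges at a vertex leave every edge there in exactly two -/
theorem two_of {w : Fin 3 → Fin 3} (hw : Function.Injective w) (j : Fin 3) :
    (univ.filter fun i => w i ≠ j).card = 2 := by
  have hb : Function.Bijective w := Finite.injective_iff_bijective.mp hw
  have h1 : (univ.filter fun i => w i = j).card = 1 := by
    obtain ⟨i, hi⟩ := hb.2 j
    rw [card_eq_one]
    refine ⟨i, ?_⟩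
    ext k
    simp only [mem_filter, mem_univ, true_and, mem_singleton]
    exact ⟨fun h => hw (h.trans hi.symm), fun h => h ▸ hi⟩
  have h2 := card_filter_add_card_filter_not (s := (univ : Finset (Fin 3))) (fun i => w i = j)
  rw [h1, card_univ, Fintype.card_fin] at h2
  have h3 : (univ.filter fun i => w i ≠ j) = univ.filter fun i => ¬ w i = j := rfl
  rw [h3]
  omega


theorem aux {V E : Type} [Fintype V] [DecidableEq V] [Fintype E] [DecidableEq E]
    {src dst : E → V} (hl : ∀ e, src e ≠ dst e)
    (hc : ∀ v, (star src dst v).card = 3)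
    {C : Fin 6 → Finset E} (hC : ∀ i v, Even (dg src dst (C i) v))
    (h4 : ∀ e, (univ.filter fun i => e ∈ C i).card = 4) (x y : V) :
    ∃ C : Fin 3 → Finset E, (∀ i v, (C i ∩ star src dst v).card = 2) ∧
      (∀ e, ∃ i, e ∈ C i) ∧
      ∀ e ∈ star src dst x ∪ star src dst y,
        (univ.filter fun i => e ∈ C i).card = 2 := by
  obtain ⟨a, u, ha, hst, hu, hu2⟩ := at_vertex hl hc hC h4 x
  obtain ⟨b, w, hb', hst', hw, hw2⟩ := at_vertex hl hc hC h4 y
  obtain ⟨σ, hσ, hσw⟩ := transversal hu2 hw2
  have hσi : Function.Injective σ := fun i j h => by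
    rw [← hσ i, ← hσ j, h]
  refine ⟨fun i => C (σ i), fun i v => ?_, fun e => ?_, fun e he => ?_⟩
  · -- two edges at every vertex
    have h5 := (compl6 hC h4 (deg3 hl hc)).1 (σ i) v
    rw [dg_card hl] at h5
    have h6 : (univ \ C (σ i)).filter (fun e => e ∈ star src dst v) =
        star src dst v \ (C (σ i) ∩ star src dst v) := by
      ext e
      simp only [mem_filter, mem_sdiff, mem_univ, true_and, mem_inter]
      tauto
    rw [h6, card_sdiff_of_subset inter_subset_right, hc v] at h5
    change (C (σ i) ∩ star src dst v).card = 2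
    omega
  · -- any three of the six cover
    by_contra hne
    push Not at hne
    have h5 : (univ.filter fun k => e ∈ C k).card + (univ.image σ).card ≤ 6 := by
      rw [← card_union_of_disjoint]
      · exact (card_le_univ _).trans (by simp)
      · rw [disjoint_left]
        intro k h6 h7
        obtain ⟨i, _, rfl⟩ := mem_image.mp h7
        exact hne i (mem_filter.mp h6).2
    rw [h4 e, card_image_of_injective _ hσi, card_univ, Fintype.card_fin] at h5
    omega
  · rw [mem_union] at he
    rcases he with he | he
    · rw [hst] at he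
      obtain ⟨j, _, rfl⟩ := mem_image.mp he
      have h5 : (univ.filter fun i => a j ∈ C (σ i)) = univ.filter fun i : Fin 3 => i ≠ j := by
        ext i
        simp only [mem_filter, mem_univ, true_and]
        rw [hu, hσ]
      rw [h5]
      exact two_of (w := id) Function.injective_id j
    · rw [hst'] at he
      obtain ⟨j, _, rfl⟩ := mem_image.mp he
      have h5 : (univ.filter fun i => b j ∈ C (σ i)) =
          univ.filter fun i : Fin 3 => w (σ i) ≠ j := by
        ext i
        simp only [mem_filter, mem_univ, true_and]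
        rw [hw]
      rw [h5]
      exact two_of hσw j


end Pool.Agent.Run7.h878.LF.Six
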