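import Pool.Agent.Run7.h878.LF.Check

set_option autoImplicit false
set_option linter.unusedSectionVars false
set_option linter.unusedVariables false

/-!
# Induced linear forests of the minimal contractions
-/

namespace Pool.Agent.Run7.h878.LF

open Finset Relation Pool.Agent.TH362.TF Pool.Agent.R890.FF Pool.Agent.R140.PK

variable {V E : Type} [Fintype V] [DecidableEq V] [DecidableEq E]
variable {s t : E → V} {S : Finset E}

/-- a minimal contraction has a vertex with a neighbour -/
theorem Mc.exNb (h : Mc s t S) : ∃ v b, Nb s t S v b := by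
  classical
  have h18 := h.odd18
  obtain ⟨y, hy⟩ : (odd s t S).Nonempty := card_pos.1 (by omega)
  rw [h.odd_nb y] at hy
  have h1 : 0 < (univ.filter (Nb s t S y)).card := by omega
  obtain ⟨z, hz⟩ := card_pos.1 h1
  exact ⟨y, z, (mem_filter.1 hz).2⟩

/-- a minimal contraction has no small closed set -/
theorem Mc.noClosed (h : Mc s t S) {v b : V} (hb : Nb s t S v b)
    (hT : Concl (Nb s t S) v) : False := by
  classical
  have h18 := h.odd18
  have hnb : ∀ y ∈ odd s t S, ∃ z, Nb s t S y z := by
    intro y hy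
    rw [h.odd_nb y] at hy
    have h1 : 0 < (univ.filter (Nb s t S y)).card := by omega
    obtain ⟨z, hz⟩ := card_pos.1 h1
    exact ⟨z, (mem_filter.1 hz).2⟩
  obtain ⟨T, hT1, hT2, hT3⟩ := hT
  have hsub : odd s t S ⊆ T.toFinset := by
    intro y hy
    obtain ⟨z, hz⟩ := hnb y hy
    have h1 := h.one_comp hb hz
    rw [mem_comp] at h1
    rw [List.mem_toFinset]
    clear hz hy
    induction h1 with
    | refl => exact hT2
    | tail hpq0 h2 ih =>
      rename_i p q
      by_cases hpq : q = p
      · rw [hpq]; exact ih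
      · exact hT3 _ ih _ ⟨hpq, h2⟩
  have h1 := card_le_card hsub
  have h2 := List.toFinset_card_le T
  omega

/-- a minimal contraction satisfies the assumptions of the search -/
theorem Mc.hyp2 (h : Mc s t S) {pats : List (List Bool)}
    (hp : ∀ q ∈ pats, ¬ HasPat (Nb s t S) q) : Hyp2 (Nb s t S) pats := by
  classical
  refine ⟨fun a b => nb_comm, fun a ha => ha.1 rfl, fun a b c => h.tri,
    fun a b c d => h.four, ?_, hp, fun a b hab hT => Mc.noClosed h hab hT⟩
  intro a b hab m hm
  have h1 : 0 < (univ.filter (Nb s t S a)).card :=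
    card_pos.2 ⟨b, mem_filter.2 ⟨mem_univ _, hab⟩⟩
  have h2 := h.nb_ne_one a
  have h3 := h.nb_ne_two a
  have h4 : m.toFinset.card < (univ.filter (Nb s t S a)).card := by
    have := List.toFinset_card_le m
    omega
  obtain ⟨w, hw, hw'⟩ := Finset.exists_mem_notMem_of_card_lt_card h4
  exact ⟨w, (mem_filter.1 hw).2, fun h => hw' (List.mem_toFinset.2 h)⟩

theorem pathP_getD {k j : ℕ} (hj : j < k) : (pathP k).getD j false = true := by
  unfold pathP
  rw [List.getD_eq_getElem _ _ (by simpa using hj), List.getElem_replicate]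

/-- the induced path with eight vertices -/
theorem Mc.has8 (h : Mc s t S)
    (hl : ∃ (f : ℕ) (l : List ℕ), (check 8 f 1 0 l).isSome = true) :
    HasPat (Nb s t S) (pathP 8) := by
  classical
  obtain ⟨f, l, hl⟩ := hl
  by_contra hcon
  refine h.long 8 f l hl ?_
  intro p hp hp'
  apply hcon
  refine ⟨fun i => if hi : i < 8 then p ⟨i, hi⟩ else p 0, ?_, ?_⟩
  · intro i hi
    have hi' : i < 8 := by simpa [pathP] using hi
    simp only [hi', dif_pos]
    by_cases h7 : i < 7
    · exact ⟨p ⟨i + 1, by omega⟩, (hp' ⟨i, hi'⟩ ⟨i + 1, by omega⟩ (by simp)).2 rfl⟩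
    · refine ⟨p ⟨i - 1, by omega⟩, nb_comm ((hp' ⟨i - 1, by omega⟩ ⟨i, hi'⟩ ?_).2 ?_)⟩
      · show i - 1 < i
        omega
      · show i - 1 + 1 = i
        omega
  · intro i j hij hj
    have hj' : j < 8 := by simpa [pathP] using hj
    have hi' : i < 8 := by omega
    simp only [hi', hj', dif_pos]
    refine ⟨fun h => ?_, ?_⟩
    · have := hp h
      have h2 : i = j := congrArg Fin.val this
      omega
    · rw [hp' ⟨i, hi'⟩ ⟨j, hj'⟩ hij]
      rw [pathP_getD hj']
      simp

/-- the state is not an induced subgraph -/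
def NE {V : Type} (R : V → V → Prop) (m A : ℕ) : Prop := ∀ φ : ℕ → V, ¬ Emb R m A φ

/-- one piece of the search -/
theorem piece {V : Type} {R : V → V → Prop} {pats : List (List Bool)} (hR : Hyp2 R pats)
    {known : List (ℕ × ℕ)} (hK : ∀ q ∈ known, NE R q.1 q.2) {f m A : ℕ} {l : List ℕ}
    (hm : 0 < m) (hc : (check2 pats known f m A l).isSome = true) : NE R m A := by
  intro φ hφ
  obtain ⟨out, ho⟩ := Option.isSome_iff_exists.1 hc
  exact check_sound2 hR hK f m A l out φ hφ hm ho

/-- one stage of the search: begin with an induced path -/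
theorem Mc.step (h : Mc s t S) {pats : List (List Bool)} {k : ℕ} (hk : k < 32)
    (hok : okM k = true) (hP : HasPat (Nb s t S) (pathP k))
    (hc : ∀ {R : V → V → Prop}, Hyp2 R pats → NE R k (pathM k)) :
    ∃ q ∈ pats, HasPat (Nb s t S) q := by
  classical
  by_contra hcon
  push Not at hcon
  have hR := Mc.hyp2 h hcon
  obtain ⟨p, hp1, hp2⟩ := hP
  have hlen : (pathP k).length = k := by simp [pathP]
  rw [hlen] at hp1 hp2
  have hp2' : ∀ i j, i < j → j < k → p i ≠ p j ∧ (Nb s t S (p i) (p j) ↔ i + 1 = j) := by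
    intro i j hij hj
    obtain ⟨a1, a2⟩ := hp2 i j hij hj
    refine ⟨a1, ?_⟩
    rw [a2]
    rw [pathP_getD hj]
    simp
  exact hc hR p (emb_path hR.symm hR.irr hk hok hp1 hp2')

end Pool.Agent.Run7.h878.LF
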